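import Pool.Agent.Helper36.TQ.Main

/-!
# Tools: covers, nilpotents, hyperbolas
-/

namespace Pool.Agent.Helper36.CU

open TensorProduct MvPolynomial
open Pool.Agent.Helper62.RO
open Pool.Agent.Helper87.CC
open Pool.Agent.Helper36.TQ

variable {S : ∀ (A : Type) [CommRing A], Prop} {W : Type} [CommRing W] {k : Type} [Field k]

theorem good_empty (hS : SOps S) {E : Fun k} {p : Pr E} (h : Good (Ft k) E p)
    (h0 : ∀ (V : Type) [CommRing V] [Algebra k V] (x : E.obj V), p V x → Subsingleton V) :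
    Good (MW S W k) E p := by
  obtain ⟨A, _, _, a, ha, hA⟩ := h
  exact ⟨A, _, _, a, ha, hA, s_trivial hS (h0 A a ha.mem_self)⟩

/-- squares -/
def csq {E : Fun k} (u : Crd E) : Crd E where
  val V _ _ x := u.val V x ^ 2
  nat f x := by rw [map_pow, u.nat]

theorem good_nil [Finite k] (hS : SOps S) (hW : S W) {E : Fun k} {p : Pr E}
    (hp : Good (Ft k) E p) (u : Crd E)
    (h : Good (MW S W k) E (fun V _ _ x => p V x ∧ u.val V x = 0)) :
    Good (MW S W k) E (fun V _ _ x => p V x ∧ u.val V x ^ 2 = 0) := by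
  have hft : Good (Ft k) E (fun V _ _ x => p V x ∧ u.val V x ^ 2 = 0) := hp.ft_cls1 (csq u)
  refine good_glue hS hW hft u (h.congr fun V _ _ x => ?_) (good_empty hS (hft.ft_opn u) ?_)
  · constructor
    · rintro ⟨h1, h2⟩
      exact ⟨⟨h1, by rw [h2]; ring⟩, h2⟩
    · rintro ⟨⟨h1, -⟩, h2⟩
      exact ⟨h1, h2⟩
  · rintro V _ _ x ⟨⟨-, h1⟩, h2⟩
    have h3 := h2.pow 2
    rw [h1] at h3
    exact isUnit_zero_iff.1 h3 |> fun h => subsingleton_of_zero_eq_one h

/-- quadratic covers -/
theorem rep_quad {E : Fun k} {p : Pr E} {A : Type} [CommRing A] [Algebra k A] {a : E.obj A}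
    (h : Rep E p A a) (u v : Crd E) :
    Rep (E.prod line) (fun V _ _ x => p V x.1 ∧ x.2 ^ 2 + u.val V x.1 * x.2 + v.val V x.1 = 0)
      (AdjoinRoot (Polynomial.X ^ 2 + Polynomial.C (u.val A a) * Polynomial.X +
        Polynomial.C (v.val A a)))
      (E.map (Algebra.ofId A _ |>.restrictScalars k) a,
        AdjoinRoot.root (Polynomial.X ^ 2 + Polynomial.C (u.val A a) * Polynomial.X +
          Polynomial.C (v.val A a))) := by
  set g : Polynomial A := Polynomial.X ^ 2 + Polynomial.C (u.val A a) * Polynomial.X +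
        Polynomial.C (v.val A a) with hg
  have h0 : ∀ b : A, (Algebra.ofId A (AdjoinRoot g) |>.restrictScalars k) b =
      algebraMap A (AdjoinRoot g) b := fun _ => rfl
  have hroot : (AdjoinRoot.root g) ^ 2 + algebraMap A _ (u.val A a) * AdjoinRoot.root g +
      algebraMap A _ (v.val A a) = 0 := by
    have := AdjoinRoot.eval₂_root g
    rw [hg] at this
    simp only [Polynomial.eval₂_add, Polynomial.eval₂_mul, Polynomial.eval₂_C,
      Polynomial.eval₂_pow, Polynomial.eval₂_X] at this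
    exact this
  refine ⟨?_, ?_, ?_⟩
  · intro V _ _ f
    refine ⟨?_, ?_⟩
    · change p V (E.map f (E.map _ a))
      rw [← E.comp_map]
      exact h.mem V _
    · change (f (AdjoinRoot.root _)) ^ 2 + u.val V (E.map f (E.map _ a)) * f (AdjoinRoot.root _) +
        v.val V (E.map f (E.map _ a)) = 0
      rw [← u.nat, ← u.nat, ← v.nat, ← v.nat, ← map_pow, ← map_mul, ← map_add, ← map_add]
      have := congrArg f hroot
      rw [map_zero] at this
      exact this
  · rintro V _ _ x ⟨hx, hx2⟩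
    obtain ⟨f, hf⟩ := h.ex V x.1 hx
    have h1 : Polynomial.eval₂ (f : A →+* V) x.2 g = 0 := by
      rw [hg]
      simp only [Polynomial.eval₂_add, Polynomial.eval₂_mul, Polynomial.eval₂_C,
        Polynomial.eval₂_pow, Polynomial.eval₂_X]
      have h2 : (f : A →+* V) (u.val A a) = u.val V x.1 := by
        change f (u.val A a) = _
        rw [u.nat, hf]
      have h3 : (f : A →+* V) (v.val A a) = v.val V x.1 := by
        change f (v.val A a) = _
        rw [v.nat, hf]
      rw [h2, h3]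
      exact hx2
    refine ⟨AdjoinRoot.liftAlgHom _ f x.2 h1, Prod.ext ?_ ?_⟩
    · change E.map _ (E.map _ a) = x.1
      rw [← E.comp_map, ← hf]
      congr 1
      ext b
      exact AdjoinRoot.lift_of h1
    · change AdjoinRoot.liftAlgHom _ f x.2 h1 (AdjoinRoot.root _) = x.2
      exact AdjoinRoot.lift_root h1
  · intro V _ _ f f' hfg
    have h1 : E.map f (E.map _ a) = E.map f' (E.map _ a) := congrArg Prod.fst hfg
    have h2 : f (AdjoinRoot.root _) = f' (AdjoinRoot.root _) := congrArg Prod.snd hfg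
    rw [← E.comp_map, ← E.comp_map] at h1
    have h3 := h.uniq V _ _ h1
    have h4 : (f : AdjoinRoot g →+* V) = (f' : AdjoinRoot g →+* V) := by
      apply AdjoinRoot.ringHom_ext
      · ext b
        exact DFunLike.congr_fun h3 b
      · exact h2
    exact AlgHom.ext fun b => RingHom.congr_fun h4 b

theorem transfer_alg (hS : SOps S) {W A B : Type} [CommRing W] [CommRing A] [CommRing B]
    [Algebra A B] [Module.Free A B] [Module.Finite A B] [Nontrivial B]
    (hW : Algebra.FiniteType ℤ W) (hA : Algebra.FiniteType ℤ A) (h : S (Ten W B)) :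
    S (Ten W A) := by
  rcases subsingleton_or_nontrivial (Ten W A) with hs | hs
  · exact hS.zero _ hs
  let _ : Algebra A (Ten W A) := (tinr W A).toAlgebra
  have h1 : IsTen (tinl W A) (algebraMap A (Ten W A)) := isTen W A
  obtain ⟨e, -⟩ := (isTen W B).equiv (isTen_baseChange h1 B)
  have h2 : S ((Ten W A) ⊗[A] B) := hS.iso _ _ e h
  let b := Module.Free.chooseBasis A B
  let b2 := Algebra.TensorProduct.basis (Ten W A) b
  have h3 : Nontrivial ((Ten W A) ⊗[A] B) := by
    obtain ⟨i⟩ : Nonempty (Module.Free.ChooseBasisIndex A B) := inferInstance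
    exact ⟨⟨b2 i, 0, b2.ne_zero i⟩⟩
  exact hS.transfer (Ten W A) ((Ten W A) ⊗[A] B) (ten_ft hW hA) h2

theorem good_transfer [Finite k] (hS : SOps S) (hW : S W) {E : Fun k} {p : Pr E}
    (hp : Good (Ft k) E p) (u v : Crd E)
    (h : Good (MW S W k) (E.prod line)
      (fun V _ _ x => p V x.1 ∧ x.2 ^ 2 + u.val V x.1 * x.2 + v.val V x.1 = 0)) :
    Good (MW S W k) E p := by
  obtain ⟨A, _, _, a, ha, hA⟩ := hp
  have h1 := good_mem hS h (rep_quad ha u v)
  refine ⟨A, _, _, a, ha, hA, ?_⟩
  rcases subsingleton_or_nontrivial A with hs | hs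
  · exact s_trivial hS hs
  set g : Polynomial A := Polynomial.X ^ 2 + Polynomial.C (u.val A a) * Polynomial.X +
        Polynomial.C (v.val A a) with hg
  have hd : g.natDegree = 2 := by
    rw [hg]
    compute_degree!
  have hm : g.Monic := by
    rw [hg]
    monicity!
  have h2 : Module.Free A (AdjoinRoot g) := hm.free_adjoinRoot
  have h3 : Module.Finite A (AdjoinRoot g) := hm.finite_adjoinRoot
  have h4 : Nontrivial (AdjoinRoot g) := by
    let b := (AdjoinRoot.powerBasis' hm)
    have h5 : 0 < b.dim := by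
      rw [AdjoinRoot.powerBasis'_dim, hd]
      decide
    exact ⟨⟨b.basis ⟨0, h5⟩, 0, b.basis.ne_zero _⟩⟩
  exact transfer_alg hS (hS.ft W hW) (ftZ hA) h1.2

theorem good_punct (hS : SOps S) {B : Fun k} {p : Pr B} (hB : Good (MW S W k) B p) :
    Good (MW S W k) (B.prod line) (fun V _ _ x => p V x.1 ∧ IsUnit x.2) := by
  refine good_opn hS (good_line hS hB) ((crdLine (k := k)).snd B) ?_
  exact hB.iso (E' := B.prod line) (fun V _ _ (y : B.obj V) => (y, (0 : V)))
    (fun V _ _ (x : (B.prod line).obj V) => x.1) (fun _ _ _ _ hy => ⟨hy, rfl⟩)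
    (fun _ _ _ _ hx => hx.1) (fun _ _ _ _ _ => rfl)
    (fun V _ _ x hx => Prod.ext rfl hx.2.symm)
    (fun V V' _ _ _ _ f x _ => Prod.ext rfl (map_zero f))

/-- the equation of a family of hyperbolas -/
def chyp {B : Fun k} (ζ : Crd B) : Crd ((B.prod line).prod line) where
  val V _ _ x := x.1.2 * x.2 + ζ.val V x.1.1
  nat {V V'} _ _ _ _ f x := by
    rw [map_add, map_mul, ζ.nat]

theorem good_hyp [Finite k] (hS : SOps S) (hW : S W) {B : Fun k} {p : Pr B}
    (hB : Good (MW S W k) B p) (ζ : Crd B)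
    (hz : (∀ (V : Type) [CommRing V] [Algebra k V] (y : B.obj V), p V y → ζ.val V y = 0) ∨
      (∀ (V : Type) [CommRing V] [Algebra k V] (y : B.obj V), p V y → IsUnit (ζ.val V y))) :
    Good (MW S W k) ((B.prod line).prod line)
      (fun V _ _ x => p V x.1.1 ∧ x.1.2 * x.2 + ζ.val V x.1.1 = 0) := by
  have hft0 : Good (Ft k) ((B.prod line).prod line) (fun V _ _ x => p V x.1.1) :=
    good_ft (good_line hS (good_line hS hB))
  have hft : Good (Ft k) ((B.prod line).prod line)
      (fun V _ _ x => p V x.1.1 ∧ x.1.2 * x.2 + ζ.val V x.1.1 = 0) := hft0.ft_cls1 (chyp ζ)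
  refine good_glue hS hW hft (((crdLine (k := k)).snd B).fst line) ?_ ?_
  · rcases hz with hz | hz
    · exact (good_line hS hB).iso (E' := (B.prod line).prod line)
        (fun V _ _ (y : (B.prod line).obj V) => ((y.1, (0 : V)), y.2))
        (fun V _ _ (x : ((B.prod line).prod line).obj V) => (x.1.1, x.2))
        (fun V _ _ y hy => ⟨⟨hy, by
          change 0 * y.2 + ζ.val V y.1 = 0
          rw [hz V y.1 hy]
          ring⟩, rfl⟩)
        (fun _ _ _ _ hx => hx.1.1) (fun _ _ _ _ _ => rfl)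
        (fun V _ _ x hx => Prod.ext (Prod.ext rfl hx.2.symm) rfl)
        (fun V V' _ _ _ _ f x _ => Prod.ext (Prod.ext rfl (map_zero f)) rfl)
    · refine good_empty hS (hft.ft_cls1 (((crdLine (k := k)).snd B).fst line)) ?_
      rintro V _ _ x ⟨⟨h1, h2⟩, h3⟩
      have h4 : x.1.2 = 0 := h3
      have h5 := hz V x.1.1 h1
      rw [h4, zero_mul, zero_add] at h2
      rw [h2] at h5
      exact isUnit_zero_iff.1 h5 |> fun h => subsingleton_of_zero_eq_one h
  · refine (good_punct hS hB).iso (E' := (B.prod line).prod line)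
        (fun V _ _ (y : (B.prod line).obj V) => (y, -(ζ.val V y.1) * Ring.inverse y.2))
        (fun V _ _ (x : ((B.prod line).prod line).obj V) => x.1) ?_ ?_ ?_ ?_ ?_
    · rintro V _ _ y ⟨h1, h2⟩
      refine ⟨⟨h1, ?_⟩, h2⟩
      change y.2 * (-(ζ.val V y.1) * Ring.inverse y.2) + ζ.val V y.1 = 0
      have h3 : y.2 * Ring.inverse y.2 = 1 := Ring.mul_inverse_cancel _ h2
      linear_combination (-(ζ.val V y.1)) * h3
    · rintro V _ _ x ⟨⟨h1, h2⟩, h3⟩
      exact ⟨h1, h3⟩
    · intro V _ _ x hx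
      rfl
    · rintro V _ _ x ⟨⟨h1, h2⟩, h3⟩
      refine Prod.ext rfl ?_
      change -(ζ.val V x.1.1) * Ring.inverse x.1.2 = x.2
      have h4 : x.1.2 * Ring.inverse x.1.2 = 1 := Ring.mul_inverse_cancel _ h3
      linear_combination (-Ring.inverse x.1.2) * h2 + x.2 * h4
    · rintro V V' _ _ _ _ f x ⟨h1, h2⟩
      refine Prod.ext rfl ?_
      change f (-(ζ.val V x.1) * Ring.inverse x.2) = -(ζ.val V' (B.map f x.1)) * Ring.inverse (f x.2)
      have h3 := map_inv_unit (f : V →+* V') h2
      have h3 : f (Ring.inverse x.2) = Ring.inverse (f x.2) := h3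
      rw [map_mul, map_neg, ζ.nat, h3]

/-- the discriminant -/
def cdisc {B : Fun k} (β ε δ η γ : Crd B) : Crd B where
  val V _ _ y := δ.val V y * ε.val V y ^ 2 - η.val V y * ε.val V y * β.val V y +
    γ.val V y * β.val V y ^ 2
  nat {V V'} _ _ _ _ f y := by
    rw [map_add, map_sub, map_mul, map_mul, map_mul, map_mul, map_pow, map_pow, β.nat, ε.nat, δ.nat,
      η.nat, γ.nat]

/-- **Conic bundles which are linear in one coordinate** -/
theorem good_lin [Finite k] (hS : SOps S) (hW : S W) {B : Fun k} {p : Pr B}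
    (hB : Good (MW S W k) B p) (β ε δ η γ : Crd B)
    (hβ : ∀ (V : Type) [CommRing V] [Algebra k V] (y : B.obj V), p V y → IsUnit (β.val V y))
    (hz : (∀ (V : Type) [CommRing V] [Algebra k V] (y : B.obj V), p V y →
        (cdisc β ε δ η γ).val V y = 0) ∨
      (∀ (V : Type) [CommRing V] [Algebra k V] (y : B.obj V), p V y →
        IsUnit ((cdisc β ε δ η γ).val V y))) :
    Good (MW S W k) ((B.prod line).prod line)
      (fun V _ _ x => p V x.1.1 ∧ (β.val V x.1.1 * x.2 + ε.val V x.1.1) * x.1.2 +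
        δ.val V x.1.1 * x.2 ^ 2 + η.val V x.1.1 * x.2 + γ.val V x.1.1 = 0) := by
  have hd : ∀ (V : Type) [CommRing V] [Algebra k V] (y : B.obj V),
      (cdisc β ε δ η γ).val V y = δ.val V y * ε.val V y ^ 2 - η.val V y * ε.val V y * β.val V y +
    γ.val V y * β.val V y ^ 2 := fun _ _ _ _ => rfl
  refine (good_hyp hS hW hB (cdisc β ε δ η γ) hz).iso (E' := (B.prod line).prod line)
    (fun V _ _ (x : ((B.prod line).prod line).obj V) =>
      ((x.1.1, (x.2 - δ.val V x.1.1 * x.1.2 - (η.val V x.1.1 * β.val V x.1.1 -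
        2 * δ.val V x.1.1 * ε.val V x.1.1)) * Ring.inverse (β.val V x.1.1) ^ 2),
        (x.1.2 - ε.val V x.1.1) * Ring.inverse (β.val V x.1.1)))
    (fun V _ _ (x : ((B.prod line).prod line).obj V) =>
      ((x.1.1, β.val V x.1.1 * x.2 + ε.val V x.1.1), β.val V x.1.1 ^ 2 * x.1.2 +
        δ.val V x.1.1 * (β.val V x.1.1 * x.2 + ε.val V x.1.1) + (η.val V x.1.1 * β.val V x.1.1 -
        2 * δ.val V x.1.1 * ε.val V x.1.1))) ?_ ?_ ?_ ?_ ?_
  · rintro V _ _ ⟨⟨y, w⟩, s⟩ ⟨h1, h2⟩
    have h3 : β.val V y * Ring.inverse (β.val V y) = 1 := Ring.mul_inverse_cancel _ (hβ V y h1)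
    refine ⟨h1, ?_⟩
    simp only [hd] at h2 ⊢
    set b := β.val V y
    set i := Ring.inverse b
    set e := ε.val V y
    set d := δ.val V y
    set n := η.val V y
    set g := γ.val V y
    have h4 : b ^ 2 * ((b * ((w - e) * i) + e) * ((s - d * w - (n * b - 2 * d * e)) * i ^ 2) +
      d * ((w - e) * i) ^ 2 + n * ((w - e) * i) + g) = 0 := by
      have e1 : b * ((w - e) * i) + e = w := by linear_combination (w - e) * h3
      rw [e1]
      have e2 : b ^ 2 * i ^ 2 = 1 := by rw [← mul_pow, h3, one_pow]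
      linear_combination h2 + (w * (s - d * w - (n * b - 2 * d * e)) + d * (w - e) ^ 2) * e2 +
        (n * (w - e) * b) * h3
    exact ((hβ V y h1).pow 2).mul_right_eq_zero.1 h4
  · rintro V _ _ ⟨⟨y, u⟩, v⟩ ⟨h1, h2⟩
    refine ⟨h1, ?_⟩
    simp only [hd] at h2 ⊢
    linear_combination (β.val V y) ^ 2 * h2
  · rintro V _ _ ⟨⟨y, w⟩, s⟩ ⟨h1, -⟩
    have h3 : β.val V y * Ring.inverse (β.val V y) = 1 := Ring.mul_inverse_cancel _ (hβ V y h1)
    have e1 : β.val V y * ((w - ε.val V y) * Ring.inverse (β.val V y)) + ε.val V y = w := by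
      linear_combination (w - ε.val V y) * h3
    have e2 : β.val V y ^ 2 * Ring.inverse (β.val V y) ^ 2 = 1 := by rw [← mul_pow, h3, one_pow]
    refine Prod.ext (Prod.ext rfl ?_) ?_
    · exact e1
    · simp only
      rw [e1]
      linear_combination (s - δ.val V y * w - (η.val V y * β.val V y -
        2 * δ.val V y * ε.val V y)) * e2
  · rintro V _ _ ⟨⟨y, u⟩, v⟩ ⟨h1, -⟩
    have h3 : β.val V y * Ring.inverse (β.val V y) = 1 := Ring.mul_inverse_cancel _ (hβ V y h1)
    have e2 : β.val V y ^ 2 * Ring.inverse (β.val V y) ^ 2 = 1 := by rw [← mul_pow, h3, one_pow]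
    refine Prod.ext (Prod.ext rfl ?_) ?_
    · simp only
      linear_combination u * e2
    · simp only
      linear_combination v * h3
  · rintro V V' _ _ _ _ f ⟨⟨y, w⟩, s⟩ ⟨h1, -⟩
    have h3 : f (Ring.inverse (β.val V y)) = Ring.inverse (β.val V' (B.map f y)) := by
      rw [← β.nat]
      exact map_inv_unit (f : V →+* V') (hβ V y h1)
    refine Prod.ext (Prod.ext rfl ?_) ?_
    · change f ((s - δ.val V y * w - (η.val V y * β.val V y -
        2 * δ.val V y * ε.val V y)) * Ring.inverse (β.val V y) ^ 2) = (f s - δ.val V' (B.map f y) *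
          f w - (η.val V' (B.map f y) * β.val V' (B.map f y) -
        2 * δ.val V' (B.map f y) * ε.val V' (B.map f y))) * Ring.inverse (β.val V' (B.map f y)) ^ 2
      rw [map_mul, map_pow, h3, map_sub, map_sub, map_sub, map_mul, map_mul, map_mul, map_mul,
        β.nat, δ.nat, η.nat, ε.nat, map_ofNat]
    · change f ((w - ε.val V y) * Ring.inverse (β.val V y)) =
        (f w - ε.val V' (B.map f y)) * Ring.inverse (β.val V' (B.map f y))
      rw [map_mul, h3, map_sub, ε.nat]

/-- a linear equation with invertible leading coefficient -/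
theorem good_solve {B : Fun k} {p : Pr B}
    (hB : Good (MW S W k) B p) (β g : Crd B)
    (hβ : ∀ (V : Type) [CommRing V] [Algebra k V] (y : B.obj V), p V y → IsUnit (β.val V y)) :
    Good (MW S W k) (B.prod line) (fun V _ _ x => p V x.1 ∧ β.val V x.1 * x.2 + g.val V x.1 = 0) := by
  refine hB.iso (E' := B.prod line)
    (fun V _ _ (y : B.obj V) => (y, -(g.val V y) * Ring.inverse (β.val V y)))
    (fun V _ _ (x : (B.prod line).obj V) => x.1) ?_ ?_ ?_ ?_ ?_
  · intro V _ _ y hy
    have h3 : β.val V y * Ring.inverse (β.val V y) = 1 := Ring.mul_inverse_cancel _ (hβ V y hy)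
    refine ⟨hy, ?_⟩
    change β.val V y * (-(g.val V y) * Ring.inverse (β.val V y)) + g.val V y = 0
    linear_combination (-g.val V y) * h3
  · rintro V _ _ x ⟨h1, -⟩
    exact h1
  · intro V _ _ y hy
    rfl
  · rintro V _ _ ⟨y, u⟩ ⟨h1, h2⟩
    have h3 : β.val V y * Ring.inverse (β.val V y) = 1 := Ring.mul_inverse_cancel _ (hβ V y h1)
    refine Prod.ext rfl ?_
    change -(g.val V y) * Ring.inverse (β.val V y) = u
    have h2 : β.val V y * u + g.val V y = 0 := h2
    linear_combination (-Ring.inverse (β.val V y)) * h2 + u * h3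
  · intro V V' _ _ _ _ f y hy
    refine Prod.ext rfl ?_
    change f (-(g.val V y) * Ring.inverse (β.val V y)) =
      -(g.val V' (B.map f y)) * Ring.inverse (β.val V' (B.map f y))
    have h3 : f (Ring.inverse (β.val V y)) = Ring.inverse (β.val V' (B.map f y)) := by
      rw [← β.nat]
      exact map_inv_unit (f : V →+* V') (hβ V y hy)
    rw [map_mul, map_neg, h3, g.nat]

end Pool.Agent.Helper36.CU
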