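import Pool.Agent.Helper36.CU.Poly
import Pool.Agent.Helper36.CU.Tools

/-!
# Cubic surfaces which contain a line
-/

namespace Pool.Agent.Helper36.CU

open TensorProduct MvPolynomial
open Pool.Agent.Helper62.RO
open Pool.Agent.Helper87.CC
open Pool.Agent.Helper36.TQ

variable {S : ∀ (A : Type) [CommRing A], Prop} {W : Type} [CommRing W] {k : Type} [Field k]

/-- families over the line -/
theorem good_fam [Finite k] (hW : S W) (hfam : Fam S)
    (L : Finset (MvPolynomial (Fin 2) (Polynomial k))) (hL : ∀ l ∈ L, l.totalDegree ≤ 1)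
    (F : MvPolynomial (Fin 2) (Polynomial k)) (hF : F.totalDegree ≤ 2) :
    Good (MW S W k) ((line (k := k)).prod (Aff (Fin 2)))
      (fun V _ _ x => ev x.1 x.2 F = 0 ∧ ∀ l ∈ L, ev x.1 x.2 l = 0) := by
  have h1 := hfam (Polynomial k) W (ftZ (k := k) inferInstance) dim_polynomial_le hW 2 L F hL hF
  obtain ⟨a, ha⟩ := rep_family (k := k) (insert F (L : Set (MvPolynomial (Fin 2) (Polynomial k))))
  have h2 : Algebra.FiniteType k (MvPolynomial (Fin 2) (Polynomial k)) :=
    Algebra.FiniteType.trans (S := Polynomial k) inferInstance inferInstance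
  have h3 : Algebra.FiniteType k (MvPolynomial (Fin 2) (Polynomial k) ⧸
      Ideal.span (insert F (L : Set (MvPolynomial (Fin 2) (Polynomial k))))) :=
    Algebra.FiniteType.of_surjective (Ideal.Quotient.mkₐ k _) Ideal.Quotient.mk_surjective
  have h4 : Good (MW S W k) ((line (k := k)).prod (Aff (Fin 2))) (fun V _ _ x =>
      ∀ g ∈ (insert F (L : Set (MvPolynomial (Fin 2) (Polynomial k)))),
        ev x.1 x.2 g = 0) := ⟨_, _, _, a, ha, h3, h1⟩
  refine h4.congr (fun _ _ _ x => ?_)
  rw [Set.forall_mem_insert]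
  rfl

/-- substitution into families -/
noncomputable def Θ (s : Fin 3 → MvPolynomial (Fin 2) (Polynomial k)) :
    MvPolynomial (Fin 3) k →+* MvPolynomial (Fin 2) (Polynomial k) :=
  eval₂Hom (C.comp Polynomial.C) s

theorem ev_Θ {V : Type} [CommRing V] [Algebra k V] (t : V) (y : Fin 2 → V)
    (s : Fin 3 → MvPolynomial (Fin 2) (Polynomial k)) (P : MvPolynomial (Fin 3) k) :
    ev t y (Θ s P) = aeval (fun i => ev t y (s i)) P := by
  have h1 : (ev t y).comp (Θ s) =
      ((aeval (fun i => ev t y (s i)) : MvPolynomial (Fin 3) k →ₐ[k] V) :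
        MvPolynomial (Fin 3) k →+* V) := by
    apply MvPolynomial.ringHom_ext
    · intro r
      change ev t y (Θ s (C r)) = aeval (fun i => ev t y (s i)) (C r)
      rw [Θ, eval₂Hom_C, aeval_C]
      change ev t y (C (Polynomial.C r)) = _
      rw [ev, eval₂Hom_C]
      simp
    · intro i
      change ev t y (Θ s (X i)) = aeval (fun i => ev t y (s i)) (X i)
      rw [Θ, eval₂Hom_X', aeval_X]
  exact RingHom.congr_fun h1 P

theorem td_Θ (s : Fin 3 → MvPolynomial (Fin 2) (Polynomial k)) (hs : ∀ i, (s i).totalDegree ≤ 1)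
    (P : MvPolynomial (Fin 3) k) : (Θ s P).totalDegree ≤ P.totalDegree := by
  apply td_eval₂ _ _ s hs
  intro a
  change (C (Polynomial.C a) : MvPolynomial (Fin 2) (Polynomial k)).totalDegree = 0
  rw [totalDegree_C]

theorem ev_C' {V : Type} [CommRing V] [Algebra k V] (t : V) (y : Fin 2 → V) :
    ev t y (C (Polynomial.X : Polynomial k)) = t := by
  rw [ev, eval₂Hom_C]
  simp

theorem ev_X' {V : Type} [CommRing V] [Algebra k V] (t : V) (y : Fin 2 → V) (i : Fin 2) :
    ev (k := k) t y (X i) = y i := by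
  rw [ev, eval₂Hom_X']

/-- the first substitution -/
noncomputable def s1 (k : Type) [Field k] : Fin 3 → MvPolynomial (Fin 2) (Polynomial k) :=
  ![C Polynomial.X, X 0, X 1]

/-- the second substitution -/
noncomputable def s2 (k : Type) [Field k] : Fin 3 → MvPolynomial (Fin 2) (Polynomial k) :=
  ![X 0, X 1, C Polynomial.X * X 1]

theorem td_s1 (i : Fin 3) : (s1 k i).totalDegree ≤ 1 := by
  fin_cases i
  · change (C Polynomial.X : MvPolynomial (Fin 2) (Polynomial k)).totalDegree ≤ 1
    rw [totalDegree_C]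
    exact zero_le_one
  · exact (totalDegree_X _).le
  · exact (totalDegree_X _).le

theorem td_s2 (i : Fin 3) : (s2 k i).totalDegree ≤ 1 := by
  fin_cases i
  · exact (totalDegree_X _).le
  · exact (totalDegree_X _).le
  · change (C Polynomial.X * X 1 : MvPolynomial (Fin 2) (Polynomial k)).totalDegree ≤ 1
    refine (totalDegree_mul _ _).trans ?_
    rw [totalDegree_C, zero_add]
    exact (totalDegree_X _).le

theorem ev_s1 {V : Type} [CommRing V] [Algebra k V] (t : V) (y : Fin 2 → V) :
    (fun i => ev t y (s1 k i)) = ![t, y 0, y 1] := by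
  funext i
  fin_cases i
  · exact ev_C' t y
  · exact ev_X' t y 0
  · exact ev_X' t y 1

theorem ev_s2 {V : Type} [CommRing V] [Algebra k V] (t : V) (y : Fin 2 → V) :
    (fun i => ev t y (s2 k i)) = ![y 0, y 1, t * y 1] := by
  funext i
  fin_cases i
  · exact ev_X' t y 0
  · exact ev_X' t y 1
  · change ev t y (C Polynomial.X * X 1) = t * y 1
    rw [map_mul, ev_C', ev_X']

/-- the line at infinity -/
theorem caseA [Finite k] {K : Type} [Field K] [Infinite K] [Algebra k K] (hW : S W)
    (hfam : Fam S) (f3 f2 : MvPolynomial (Fin 3) k) (h3 : f3.totalDegree ≤ 3)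
    (h2 : f2.totalDegree ≤ 2)
    (hv : ∀ v : Fin 3 → K, v 0 = 0 → eval v (map (algebraMap k K) f3) = 0) :
    Good (MW S W k) (Aff (Fin 3)) (fun V _ _ x => aeval x (f3 + f2) = 0) := by
  classical
  obtain ⟨P, hP, hf⟩ := split_vars {0} f3 2 h3 (support_of_vanish (K := K) {0} f3
    (fun v h => hv v (h 0 (Finset.mem_singleton_self 0))))
  rw [Finset.sum_singleton] at hf
  let F : MvPolynomial (Fin 2) (Polynomial k) := Θ (s1 k) f2 + C Polynomial.X * Θ (s1 k) (P 0)
  have hF : F.totalDegree ≤ 2 := by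
    refine (totalDegree_add _ _).trans (max_le ((td_Θ _ td_s1 _).trans h2) ?_)
    refine (totalDegree_mul _ _).trans ?_
    rw [totalDegree_C, zero_add]
    exact (td_Θ _ td_s1 _).trans (hP 0)
  have h1 := good_fam (W := W) hW hfam ∅ (by simp) F hF
  have key : ∀ (V : Type) [CommRing V] [Algebra k V] (t : V) (y : Fin 2 → V),
      ev t y F = aeval ![t, y 0, y 1] (f3 + f2) := by
    intro V _ _ t y
    simp only [F]
    rw [map_add, map_mul, ev_C', ev_Θ, ev_Θ, ev_s1, hf, map_add, map_mul, aeval_X, add_comm]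
    rfl
  refine h1.iso (E' := Aff (Fin 3))
    (fun V _ _ (x : ((line (k := k)).prod (Aff (Fin 2))).obj V) => ![x.1, x.2 0, x.2 1])
    (fun V _ _ (x : (Aff (k := k) (Fin 3)).obj V) => (x 0, ![x 1, x 2])) ?_ ?_ ?_ ?_ ?_
  · rintro V _ _ ⟨t, y⟩ ⟨h4, -⟩
    exact (key V t y).symm.trans h4
  · intro V _ _ x hx
    refine ⟨?_, by simp⟩
    refine (key V (x 0) ![x 1, x 2]).trans ?_
    have h4 : ![x 0, (![x 1, x 2] : Fin 2 → V) 0, (![x 1, x 2] : Fin 2 → V) 1] = x := by
      funext i
      fin_cases i <;> rfl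
    rw [h4]
    exact hx
  · rintro V _ _ ⟨t, y⟩ -
    refine Prod.ext rfl ?_
    funext i
    fin_cases i <;> rfl
  · intro V _ _ x _
    funext i
    fin_cases i <;> rfl
  · rintro V V' _ _ _ _ f ⟨t, y⟩ -
    funext i
    fin_cases i <;> rfl

theorem ft_vs3 (f : MvPolynomial (Fin 3) k) :
    Good (Ft k) (Aff (Fin 3)) (fun V _ _ x => aeval (R := k) (S₁ := V) x f = 0) := by
  obtain ⟨a, ha⟩ := rep_vs (k := k) ({f} : Set (MvPolynomial (Fin 3) k))
  have h1 : Good (Ft k) (Aff (Fin 3)) (VS ({f} : Set (MvPolynomial (Fin 3) k))) :=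
    ⟨_, _, _, a, ha, Algebra.FiniteType.of_surjective (Ideal.Quotient.mkₐ k _)
      Ideal.Quotient.mk_surjective⟩
  refine h1.congr (fun V _ _ x => ?_)
  rw [VS]
  simp

/-- an affine line -/
theorem caseB [Finite k] {K : Type} [Field K] [Infinite K] [Algebra k K] (hS : SOps S) (hW : S W)
    (hfam : Fam S) (f : MvPolynomial (Fin 3) k) (h3 : f.totalDegree ≤ 3)
    (hv : ∀ v : Fin 3 → K, v 1 = 0 → v 2 = 0 → eval v (map (algebraMap k K) f) = 0) :
    Good (MW S W k) (Aff (Fin 3)) (fun V _ _ x => aeval x f = 0) := by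
  classical
  obtain ⟨P, hP, hf⟩ := split_vars {1, 2} f 2 h3 (support_of_vanish (K := K) {1, 2} f
    (fun v h => hv v (h 1 (by simp)) (h 2 (by simp))))
  rw [Finset.sum_pair (by decide)] at hf
  refine good_glue hS hW (ft_vs3 f) (crd 1) ?_ ?_
  · -- the plane section
    let φ : Fin 3 → MvPolynomial (Fin 2) k := ![X 0, 0, X 1]
    have h1 := few hS hfam hW (le_refl 2) (bind₁ φ f) (0 : MvPolynomial (Fin 2) k)
    have h2 := (good_vs_iff (k := k) (W := W) hS _).2 h1
    have hφ : ∀ (V : Type) [CommRing V] [Algebra k V] (y : Fin 2 → V),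
        (fun i => aeval y (φ i)) = ![y 0, 0, y 1] := by
      intro V _ _ y
      funext i
      fin_cases i
      · exact aeval_X y 0
      · exact map_zero _
      · exact aeval_X y 1
    refine h2.iso (E' := Aff (Fin 3))
      (fun V _ _ (y : (Aff (k := k) (Fin 2)).obj V) => ![y 0, 0, y 1])
      (fun V _ _ (x : (Aff (k := k) (Fin 3)).obj V) => ![x 0, x 2]) ?_ ?_ ?_ ?_ ?_
    · intro V _ _ y hy
      have h4 := hy (bind₁ φ f) (by simp)
      rw [aeval_bind₁, hφ] at h4
      exact ⟨h4, rfl⟩
    · rintro V _ _ x ⟨h4, h5⟩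
      have h5 : x 1 = 0 := h5
      simp only [VS, Set.forall_mem_insert, Set.mem_singleton_iff, forall_eq, map_zero, and_true]
      rw [aeval_bind₁, hφ]
      have h6 : ![(![x 0, x 2] : Fin 2 → V) 0, 0, (![x 0, x 2] : Fin 2 → V) 1] = x := by
        funext i
        fin_cases i
        · rfl
        · exact h5.symm
        · rfl
      rw [h6]
      exact h4
    · intro V _ _ y _
      funext i
      fin_cases i <;> rfl
    · rintro V _ _ x ⟨h4, h5⟩
      have h5 : x 1 = 0 := h5
      funext i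
      fin_cases i
      · rfl
      · exact h5.symm
      · rfl
    · intro V V' _ _ _ _ g y _
      funext i
      fin_cases i
      · rfl
      · exact map_zero g
      · rfl
  · let F : MvPolynomial (Fin 2) (Polynomial k) :=
      Θ (s2 k) (P 1) + C Polynomial.X * Θ (s2 k) (P 2)
    have hF : F.totalDegree ≤ 2 := by
      refine (totalDegree_add _ _).trans (max_le ((td_Θ _ td_s2 _).trans (hP 1)) ?_)
      refine (totalDegree_mul _ _).trans ?_
      rw [totalDegree_C, zero_add]
      exact (td_Θ _ td_s2 _).trans (hP 2)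
    have key : ∀ (V : Type) [CommRing V] [Algebra k V] (t : V) (y : Fin 2 → V),
        aeval ![y 0, y 1, t * y 1] f = y 1 * ev t y F := by
      intro V _ _ t y
      have h4 : aeval ![y 0, y 1, t * y 1] f = y 1 * aeval ![y 0, y 1, t * y 1] (P 1) +
          t * y 1 * aeval ![y 0, y 1, t * y 1] (P 2) := by
        conv_lhs => rw [hf]
        rw [map_add, map_mul, map_mul, aeval_X, aeval_X]
        rfl
      rw [h4]
      simp only [F]
      rw [map_add, map_mul, ev_C', ev_Θ, ev_Θ, ev_s2]
      ring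
    have h1 := good_fam (W := W) hW hfam ∅ (by simp) F hF
    have h1' : Good (MW S W k) ((line (k := k)).prod (Aff (Fin 2)))
        (fun V _ _ x => ev x.1 x.2 F = 0) := h1.congr (fun V _ _ x => by simp)
    have h2 := good_fam (W := W) hW hfam {X 1} (by
      intro l hl
      rw [Finset.mem_singleton.1 hl]
      exact (totalDegree_X _).le) F hF
    let u : Crd ((line (k := k)).prod (Aff (Fin 2))) :=
      { val := fun V _ _ x => x.2 1
        nat := fun _ _ => rfl }
    have h5 := good_opn hS h1' u (h2.congr (fun V _ _ x => by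
      simp only [Finset.mem_singleton, forall_eq, ev_X']
      rfl))
    refine h5.iso (E' := Aff (Fin 3))
      (fun V _ _ (x : ((line (k := k)).prod (Aff (Fin 2))).obj V) =>
        ![x.2 0, x.2 1, x.1 * x.2 1])
      (fun V _ _ (x : (Aff (k := k) (Fin 3)).obj V) => (x 2 * Ring.inverse (x 1), ![x 0, x 1]))
      ?_ ?_ ?_ ?_ ?_
    · rintro V _ _ ⟨t, y⟩ ⟨h6, h7⟩
      refine ⟨?_, h7⟩
      refine (key V t y).trans ?_
      have h6 : ev t y F = 0 := h6
      rw [h6, mul_zero]
    · rintro V _ _ x ⟨h6, h7⟩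
      have h7 : IsUnit (x 1) := h7
      have h8 : x 1 * Ring.inverse (x 1) = 1 := Ring.mul_inverse_cancel _ h7
      refine ⟨?_, h7⟩
      have h9 := key V (x 2 * Ring.inverse (x 1)) ![x 0, x 1]
      have h10 : ![(![x 0, x 1] : Fin 2 → V) 0, (![x 0, x 1] : Fin 2 → V) 1,
          x 2 * Ring.inverse (x 1) * (![x 0, x 1] : Fin 2 → V) 1] = x := by
        funext i
        fin_cases i
        · rfl
        · rfl
        · change x 2 * Ring.inverse (x 1) * x 1 = x 2
          linear_combination x 2 * h8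
      rw [h10, h6] at h9
      exact h7.mul_right_eq_zero.1 h9.symm
    · rintro V _ _ ⟨t, y⟩ ⟨h6, h7⟩
      have h7 : IsUnit (y 1) := h7
      have h8 : y 1 * Ring.inverse (y 1) = 1 := Ring.mul_inverse_cancel _ h7
      refine Prod.ext ?_ ?_
      · change t * y 1 * Ring.inverse (y 1) = t
        linear_combination t * h8
      · funext i
        fin_cases i <;> rfl
    · rintro V _ _ x ⟨h6, h7⟩
      have h7 : IsUnit (x 1) := h7
      have h8 : x 1 * Ring.inverse (x 1) = 1 := Ring.mul_inverse_cancel _ h7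
      funext i
      fin_cases i
      · rfl
      · rfl
      · change x 2 * Ring.inverse (x 1) * x 1 = x 2
        linear_combination x 2 * h8
    · rintro V V' _ _ _ _ g ⟨t, y⟩ ⟨h6, h7⟩
      funext i
      fin_cases i
      · rfl
      · rfl
      · exact map_mul g t (y 1)

end Pool.Agent.Helper36.CU
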