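import Pool.Agent.Helper36.CU.Cover

/-!
# Conic bundles over the plane
-/

namespace Pool.Agent.Helper36.CU

open TensorProduct MvPolynomial
open Pool.Agent.Helper62.RO
open Pool.Agent.Helper87.CC
open Pool.Agent.Helper36.TQ

variable {S : ∀ (A : Type) [CommRing A], Prop} {W : Type} [CommRing W] {k : Type} [Field k]

/-- squaring the variables -/
noncomputable def sqx (a : R2 k) : R2 k := bind₁ (fun i => X i ^ 2) a

theorem pv_sqx {V : Type} [CommRing V] [Algebra k V] (t : Fin 2 → V) (a : R2 k) :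
    pv t (sqx a) = pv (fun i => t i ^ 2) a := by
  rw [pv, sqx, aeval_bind₁]
  congr 1
  congr 1
  funext i
  rw [map_pow, aeval_X]

theorem q2_sqx {V : Type} [CommRing V] [Algebra k V] (a b d e0 e1 c : R2 k) (t : Fin 2 → V)
    (v0 v1 : V) : q2 (sqx a) (sqx b) (sqx d) (sqx e0) (sqx e1) (sqx c) ((t, v0), v1) =
      q2 a b d e0 e1 c ((fun i => t i ^ 2, v0), v1) := by
  simp only [q2, pv_sqx]

/-- the equation of a quadratic cover -/
def cquad {E : Fun k} (u v : Crd E) : Crd (E.prod line) where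
  val V _ _ x := x.2 ^ 2 + u.val V x.1 * x.2 + v.val V x.1
  nat {V V'} _ _ _ _ f x := by
    rw [map_add, map_add, map_mul, map_pow, u.nat, v.nat]

theorem ft_line {E : Fun k} {p : Pr E} (h : Good (Ft k) E p) :
    Good (Ft k) (E.prod line) (fun V _ _ x => p V x.1) := by
  obtain ⟨A, _, _, a, ha, hA⟩ := h
  have hA : Algebra.FiniteType k A := hA
  exact ⟨_, _, _, _, rep_line ha, Algebra.FiniteType.trans (S := A) hA inferInstance⟩

/-- the purely inseparable cover of the plane -/
theorem good_tau [Finite k] (hS : SOps S) (hW : S W) {a b d e0 e1 c : R2 k}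
    (h : Good (MW S W k) (P2 k) (fun V _ _ x =>
      q2 (V := V) (sqx a) (sqx b) (sqx d) (sqx e0) (sqx e1) (sqx c) x = 0)) :
    Good (MW S W k) (P2 k) (fun V _ _ x => q2 (V := V) a b d e0 e1 c x = 0) := by
  let z2 : Crd (P2 k) :=
    { val := fun V _ _ x => 0
      nat := fun f x => map_zero f }
  let t0 : Crd (P2 k) :=
    { val := fun V _ _ x => -(x.1.1 0)
      nat := fun f x => map_neg f _ }
  refine good_transfer hS hW (ft_q2 a b d e0 e1 c) z2 t0 ?_
  refine good_transfer hS hW ((ft_line (ft_q2 a b d e0 e1 c)).ft_cls1 (cquad z2 t0))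
    { val := fun V _ _ x => 0
      nat := fun f x => map_zero f }
    { val := fun V _ _ x => -(x.1.1.1 1)
      nat := fun f x => map_neg f _ } ?_
  refine h.iso (E' := ((P2 k).prod line).prod line)
    (fun V _ _ (x : (P2 k).obj V) =>
      ((((fun i => x.1.1 i ^ 2, x.1.2), x.2), x.1.1 0), x.1.1 1))
    (fun V _ _ (x : (((P2 k).prod line).prod line).obj V) =>
      ((![x.1.2, x.2], x.1.1.1.2), x.1.1.2)) ?_ ?_ ?_ ?_ ?_
  · rintro V _ _ ⟨⟨t, v0⟩, v1⟩ h1
    refine ⟨⟨?_, ?_⟩, ?_⟩
    · exact (q2_sqx a b d e0 e1 c t v0 v1).symm.trans h1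
    · change t 0 ^ 2 + 0 * t 0 + -(t 0 ^ 2) = 0
      ring
    · change t 1 ^ 2 + 0 * t 1 + -(t 1 ^ 2) = 0
      ring
  · rintro V _ _ ⟨⟨⟨⟨t, v0⟩, v1⟩, x⟩, y⟩ ⟨⟨h1, h2⟩, h3⟩
    have h2 : x ^ 2 + 0 * x + -(t 0) = 0 := h2
    have h3 : y ^ 2 + 0 * y + -(t 1) = 0 := h3
    refine (q2_sqx a b d e0 e1 c ![x, y] v0 v1).trans ?_
    have h4 : (fun i => ![x, y] i ^ 2) = t := by
      funext i
      fin_cases i
      · change x ^ 2 = t 0
        linear_combination h2
      · change y ^ 2 = t 1
        linear_combination h3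
    rw [h4]
    exact h1
  · rintro V _ _ ⟨⟨t, v0⟩, v1⟩ h1
    refine Prod.ext (Prod.ext ?_ rfl) rfl
    funext i
    fin_cases i <;> rfl
  · rintro V _ _ ⟨⟨⟨⟨t, v0⟩, v1⟩, x⟩, y⟩ ⟨⟨h1, h2⟩, h3⟩
    have h2 : x ^ 2 + 0 * x + -(t 0) = 0 := h2
    have h3 : y ^ 2 + 0 * y + -(t 1) = 0 := h3
    have h4 : (fun i => ![x, y] i ^ 2) = t := by
      funext i
      fin_cases i
      · change x ^ 2 = t 0
        linear_combination h2
      · change y ^ 2 = t 1
        linear_combination h3
    exact Prod.ext (Prod.ext (Prod.ext (Prod.ext h4 rfl) rfl) rfl) rfl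
  · rintro V V' _ _ _ _ f ⟨⟨t, v0⟩, v1⟩ _
    refine Prod.ext (Prod.ext (Prod.ext (Prod.ext ?_ rfl) rfl) rfl) rfl
    funext i
    exact map_pow f (t i) 2

section

variable [CharP k 2] [PerfectRing k 2]

/-- square roots in characteristic two, after squaring the variables -/
noncomputable def rt : R2 k →+* R2 k :=
  MvPolynomial.map ((frobeniusEquiv k 2).symm : k →+* k)

omit [PerfectRing k 2] in
theorem two_zero : (2 : R2 k) = 0 := by
  have h1 : (2 : k) = 0 := CharTwo.two_eq_zero
  have h2 : (2 : R2 k) = C 2 := (map_ofNat C 2).symm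
  rw [h2, h1, C_0]

theorem rt_sq (p : R2 k) : rt p ^ 2 = sqx p := by
  induction p using MvPolynomial.induction_on with
  | C c =>
    rw [rt, map_C, sqx, bind₁_C_right, ← C_pow]
    congr 1
    exact frobeniusEquiv_symm_pow_p k 2 c
  | add p q hp hq =>
    have h1 : sqx (p + q) = sqx p + sqx q := by
      rw [sqx, map_add]
      rfl
    rw [h1, ← hp, ← hq, map_add]
    linear_combination (rt p * rt q) * two_zero (k := k)
  | mul_X p i hp =>
    have h1 : sqx (p * X i) = sqx p * X i ^ 2 := by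
      rw [sqx, map_mul, bind₁_X_right]
      rfl
    have h2 : rt (X i : R2 k) = X i := by rw [rt, map_X]
    rw [h1, ← hp, map_mul, h2]
    ring

theorem rt_inj {p : R2 k} (h : rt p = 0) : p = 0 := by
  have h1 : Function.Injective (rt (k := k)) :=
    map_injective _ ((frobeniusEquiv k 2).symm.injective)
  exact h1 (h.trans (map_zero _).symm)

end

/-- the surfaces which occur as degenerate bases -/
def Surf (S : ∀ (A : Type) [CommRing A], Prop) (W : Type) [CommRing W] (k : Type) [Field k] :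
    Prop :=
  ∀ a b c : R2 k, a.totalDegree ≤ 1 → b.totalDegree ≤ 2 → c.totalDegree ≤ 3 →
    Good (MW S W k) (P1 k) (fun V _ _ x => q1 (V := V) a b c x = 0)

/-- characteristic two, degenerate leading form -/
theorem good_two [Finite k] (hS : SOps S) (hW : S W) (hfam : Fam S) (hsurf : Surf S W k)
    (a d e0 e1 c : R2 k) (hd : d.totalDegree ≤ 1)
    (he1 : e1.totalDegree ≤ 2) (hc : c.totalDegree ≤ 3) (hd0 : d ≠ 0) (h2 : (2 : k) = 0) :
    Good (MW S W k) (P2 k) (fun V _ _ x => q2 (V := V) a 0 d e0 e1 c x = 0) := by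
  have hchar : CharP k 2 := CharTwo.of_one_ne_zero_of_two_eq_zero one_ne_zero h2
  have hperf : PerfectRing k 2 := inferInstance
  have h20 := two_zero (k := k)
  have hsq0 : sqx (0 : R2 k) = 0 := by rw [sqx, map_zero]
  by_cases hΔ : a * e1 ^ 2 + d * e0 ^ 2 = 0
  · by_cases he : e1 = 0
    · subst he
      have he0 : e0 = 0 := by
        have h3 : d * e0 ^ 2 = 0 := by linear_combination hΔ
        rcases mul_eq_zero.1 h3 with h4 | h4
        · exact absurd h4 hd0
        · exact pow_eq_zero_iff two_ne_zero |>.1 h4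
      subst he0
      apply good_tau hS hW
      rw [hsq0]
      refine dir_zero hS hW hfam (sqx a) 0 (sqx d) 0 0 (sqx c) (rt a) (rt d) ?_ ?_ ?_ ?_ ?_
      · rw [← rt_sq, ← rt_sq]
        linear_combination (rt d ^ 2 * rt a ^ 2) * h20
      · linear_combination (rt a * sqx d) * h20
      · exact fun h => hd0 (rt_inj h)
      · ring
      · have hB := good_open (k := k) hS hW hfam (rt d)
        have h3 := good_solve hB (ca (rt d)) (ca (rt c)) (fun V _ _ y hy => hy)
        have hft : Good (Ft k) (P1 k) (fun V _ _ x => IsUnit (pv (V := V) x.1 (rt d))) :=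
          ft_line (good_ft hB)
        have h4 := good_nil hS hW hft (cq1 0 (rt d) (rt c)) (h3.congr (fun V _ _ x => by
          simp only [cq1, q1, pv_zero, zero_mul, zero_add, ca]))
        refine h4.congr (fun V _ _ x => ?_)
        have h5 : (cq1 0 (rt d) (rt c)).val V x ^ 2 = q1 (sqx d) 0 (sqx c) x := by
          simp only [cq1, q1, pv_zero, zero_mul, zero_add, add_zero, ← rt_sq, pv_pow]
          have h6 : pv x.1 (2 : R2 k) = 0 := by rw [h20, pv_zero]
          rw [pv_two] at h6
          linear_combination (pv x.1 (rt d) * x.2 * pv x.1 (rt c)) * h6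
        rw [h5]
        exact and_comm
    · refine dir_zero hS hW hfam a 0 d e0 e1 c e0 e1 ?_ ?_ he ?_
        (add1 hS hW hfam e1 he d e1 c (hsurf d e1 c hd he1 hc))
      · linear_combination hΔ
      · linear_combination (e0 * d) * h20
      · linear_combination (e0 * e1) * h20
  · apply good_tau hS hW
    rw [hsq0]
    refine dir_one hS hW hfam (sqx a) 0 (sqx d) (sqx e0) (sqx e1) (sqx c) (rt a) (rt d) ?_ ?_ ?_ ?_
    · rw [← rt_sq, ← rt_sq]
      linear_combination (rt d ^ 2 * rt a ^ 2) * h20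
    · linear_combination (rt a * sqx d) * h20
    · exact fun h => hd0 (rt_inj h)
    · intro h
      apply hΔ
      apply rt_inj
      rw [map_add, map_mul, map_mul, map_pow, map_pow, rt_sq, rt_sq]
      linear_combination h

theorem good_conic_aux [Finite k] (hS : SOps S) (hW : S W) (hfam : Fam S) (hsurf : Surf S W k)
    (a b d e0 e1 c : R2 k) (ha : a.totalDegree ≤ 1) (hb : b.totalDegree ≤ 1)
    (hd : d.totalDegree ≤ 1) (he1 : e1.totalDegree ≤ 2)
    (hc : c.totalDegree ≤ 3) (hd0 : d ≠ 0) :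
    Good (MW S W k) (P2 k) (fun V _ _ x => q2 (V := V) a b d e0 e1 c x = 0) := by
  by_cases hD : b ^ 2 - 4 * a * d = 0
  · by_cases h2 : (2 : k) = 0
    · have hchar : CharP k 2 := CharTwo.of_one_ne_zero_of_two_eq_zero one_ne_zero h2
      have h20 := two_zero (k := k)
      have hb0 : b = 0 := by
        have h3 : b ^ 2 = 0 := by linear_combination hD + (2 * a * d) * h20
        exact pow_eq_zero_iff two_ne_zero |>.1 h3
      subst hb0
      exact good_two hS hW hfam hsurf a d e0 e1 c hd he1 hc hd0 h2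
    · have h20 : (2 : R2 k) ≠ 0 := by
        have h3 : (2 : R2 k) = C 2 := (map_ofNat C 2).symm
        rw [h3, Ne, C_eq_zero]
        exact h2
      have hs : 2 * d ≠ 0 := mul_ne_zero h20 hd0
      have h3 : (2 * d) ^ 2 * a + 2 * d * (-b) * b + (-b) ^ 2 * d = 0 := by
        linear_combination (-d) * hD
      have h4 : 2 * d * b + 2 * (-b) * d = 0 := by ring
      by_cases hε : 2 * d * e0 + (-b) * e1 = 0
      · exact dir_zero hS hW hfam a b d e0 e1 c (-b) (2 * d) h3 h4 hs hε
          (add1 hS hW hfam (2 * d) hs d e1 c (hsurf d e1 c hd he1 hc))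
      · exact dir_one hS hW hfam a b d e0 e1 c (-b) (2 * d) h3 h4 hs hε
  · exact good_cover hS hW hfam a b d e0 e1 c ha hb hd hd0 hD

/-- **Conic bundles over the plane.** -/
theorem good_conic [Finite k] (hS : SOps S) (hW : S W) (hfam : Fam S) (hsurf : Surf S W k)
    (a b d e0 e1 c : R2 k) (ha : a.totalDegree ≤ 1) (hb : b.totalDegree ≤ 1)
    (hd : d.totalDegree ≤ 1) (he0 : e0.totalDegree ≤ 2) (he1 : e1.totalDegree ≤ 2)
    (hc : c.totalDegree ≤ 3) :
    Good (MW S W k) (P2 k) (fun V _ _ x => q2 (V := V) a b d e0 e1 c x = 0) := by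
  by_cases hd0 : d = 0
  · by_cases ha0 : a = 0
    · subst hd0 ha0
      by_cases hb0 : b = 0
      · subst hb0
        by_cases he : e0 = 0
        · refine dir_zero hS hW hfam 0 0 0 e0 e1 c 0 1 (by ring) (by ring) one_ne_zero
            (by rw [he]; ring) ?_
          refine (hsurf 0 e1 c (by simp) he1 hc).congr (fun V _ _ x => ?_)
          rw [pv_one]
          exact ⟨fun h => ⟨h, isUnit_one⟩, fun h => h.1⟩
        · exact dir_one hS hW hfam 0 0 0 e0 e1 c 0 1 (by ring) (by ring) one_ne_zero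
            (by
              intro h
              apply he
              linear_combination h)
      · exact good_hyperbolic hS hW hfam b e0 e1 c hb0
    · apply good_swap
      exact good_conic_aux hS hW hfam hsurf d b a e1 e0 c hd hb ha he0 hc ha0
  · exact good_conic_aux hS hW hfam hsurf a b d e0 e1 c ha hb hd he1 hc hd0

end Pool.Agent.Helper36.CU
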