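import Pool.Agent.Helper36.CU.Dir

/-!
# Conic bundles over the plane whose leading form is nondegenerate
-/

namespace Pool.Agent.Helper36.CU

open TensorProduct MvPolynomial
open Pool.Agent.Helper62.RO
open Pool.Agent.Helper87.CC
open Pool.Agent.Helper36.TQ

variable {S : ∀ (A : Type) [CommRing A], Prop} {W : Type} [CommRing W] {k : Type} [Field k]

theorem ev_mapC {V : Type} [CommRing V] [Algebra k V] {m : ℕ} (t : V) (x : Fin m → V)
    (P : MvPolynomial (Fin m) k) : ev t x (map Polynomial.C P) = aeval x P := by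
  have h1 := ev_pencil t x P 0
  rw [map_zero, map_zero, mul_zero, add_zero, mul_zero, add_zero] at h1
  exact h1

theorem ev_C {V : Type} [CommRing V] [Algebra k V] {m : ℕ} (t : V) (x : Fin m → V)
    (P : Polynomial k) : ev t x (C P) = Polynomial.aeval t P := by
  rw [ev, eval₂Hom_C]
  rfl

/-- the surface `d θ ^ 2 + b θ + a = 0` -/
theorem good_sigma [Finite k] (hW : S W) (hfam : Fam S) (a b d : R2 k)
    (ha : a.totalDegree ≤ 1) (hb : b.totalDegree ≤ 1) (hd : d.totalDegree ≤ 1) :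
    Good (MW S W k) (P1 k) (fun V _ _ x => q1 (V := V) d b a x = 0) := by
  classical
  let g : MvPolynomial (Fin 2) (Polynomial k) :=
    C (Polynomial.X ^ 2) * MvPolynomial.map Polynomial.C d +
      C Polynomial.X * MvPolynomial.map Polynomial.C b + MvPolynomial.map Polynomial.C a
  have hg : g.totalDegree ≤ 2 :=
    td_add (td_add (td_Cmul _ ((totalDegree_map_le' _ _).trans (hd.trans one_le_two)))
      (td_Cmul _ ((totalDegree_map_le' _ _).trans (hb.trans one_le_two))))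
      ((totalDegree_map_le' _ _).trans (ha.trans one_le_two))
  have h0 : Algebra.FiniteType ℤ (Polynomial k) := ftZ (k := k) inferInstance
  have h1 := hfam (Polynomial k) W h0 dim_polynomial_le hW 2 ∅ g (by simp) hg
  obtain ⟨p, hp⟩ := rep_family (insert g
    ((∅ : Finset (MvPolynomial (Fin 2) (Polynomial k))) : Set (MvPolynomial (Fin 2) (Polynomial k))))
  have h2 : Algebra.FiniteType k (MvPolynomial (Fin 2) (Polynomial k)) :=
    Algebra.FiniteType.trans (S := Polynomial k) inferInstance inferInstance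
  have h3 : Algebra.FiniteType k (MvPolynomial (Fin 2) (Polynomial k) ⧸
      Ideal.span (insert g ((∅ : Finset (MvPolynomial (Fin 2) (Polynomial k))) :
        Set (MvPolynomial (Fin 2) (Polynomial k))))) :=
    Algebra.FiniteType.of_surjective (Ideal.Quotient.mkₐ k _) Ideal.Quotient.mk_surjective
  have h4 : Good (MW S W k) ((line (k := k)).prod (Aff (Fin 2))) (fun V _ _ x =>
      ∀ g' ∈ (insert g ((∅ : Finset (MvPolynomial (Fin 2) (Polynomial k))) :
        Set (MvPolynomial (Fin 2) (Polynomial k)))), ev x.1 x.2 g' = 0) :=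
    ⟨_, _, _, p, hp, h3, h1⟩
  have hev : ∀ (V : Type) [CommRing V] [Algebra k V] (t : Fin 2 → V) (x : V),
      ev x t g = q1 d b a (t, x) := by
    intro V _ _ t x
    simp only [g, map_add, map_mul, ev_mapC, ev_C, map_pow, Polynomial.aeval_X, q1]
    ring
  refine h4.iso (E' := P1 k)
    (fun V _ _ (x : ((line (k := k)).prod (Aff (Fin 2))).obj V) => (x.2, x.1))
    (fun V _ _ (x : (P1 k).obj V) => (x.2, x.1)) ?_ ?_ (fun _ _ _ _ _ => rfl)
    (fun _ _ _ _ _ => rfl) (fun _ _ _ _ _ _ _ _ _ => rfl)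
  · rintro V _ _ ⟨x, t⟩ hx
    have h5 := hx g (Set.mem_insert _ _)
    exact (hev V t x).symm.trans h5
  · rintro V _ _ ⟨t, x⟩ hx g' hg'
    have h8 : g' = g := by
      rcases Set.mem_insert_iff.1 hg' with h9 | h9
      · exact h9
      · simp at h9
    rw [h8]
    exact (hev V t x).trans hx

/-- the discriminant of the conic -/
noncomputable def Delta (a b d e0 e1 c : R2 k) : R2 k :=
  a * e1 ^ 2 - b * e0 * e1 + d * e0 ^ 2 + c * (b ^ 2 - 4 * a * d)

theorem pv_Delta {V : Type} [CommRing V] [Algebra k V] (t : Fin 2 → V) (a b d e0 e1 c : R2 k) :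
    pv t (Delta a b d e0 e1 c) = pv t a * pv t e1 ^ 2 - pv t b * pv t e0 * pv t e1 +
      pv t d * pv t e0 ^ 2 + pv t c * (pv t b ^ 2 - 4 * pv t a * pv t d) := by
  simp only [Delta, pv_add, pv_sub, pv_mul, pv_pow, pv_four]

theorem exists_factor (Δ : R2 k) : ∃ g : R2 k, g ≠ 0 ∧ (Δ = 0 ∨ g = Δ) := by
  by_cases h : Δ = 0
  · exact ⟨1, one_ne_zero, Or.inl h⟩
  · exact ⟨Δ, h, Or.inr rfl⟩

/-- nondegenerate leading form, the general case -/
theorem good_cover [Finite k] (hS : SOps S) (hW : S W) (hfam : Fam S)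
    (a b d e0 e1 c : R2 k) (ha : a.totalDegree ≤ 1) (hb : b.totalDegree ≤ 1)
    (hd : d.totalDegree ≤ 1) (hd0 : d ≠ 0) (hD : b ^ 2 - 4 * a * d ≠ 0) :
    Good (MW S W k) (P2 k) (fun V _ _ x => q2 (V := V) a b d e0 e1 c x = 0) := by
  obtain ⟨g, hg0, hg⟩ := exists_factor (Delta a b d e0 e1 c)
  set D : R2 k := b ^ 2 - 4 * a * d with hDdef
  set h : R2 k := d * (D * g) with hh
  have hh0 : h ≠ 0 := mul_ne_zero hd0 (mul_ne_zero hD hg0)
  have hu : ∀ (V : Type) [CommRing V] [Algebra k V] (t : Fin 2 → V), IsUnit (pv t h) →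
      IsUnit (pv t d) ∧ IsUnit (pv t D) ∧ IsUnit (pv t g) := by
    intro V _ _ t ht
    rw [hh, pv_mul, pv_mul] at ht
    exact ⟨isUnit_of_mul_isUnit_left ht, isUnit_of_mul_isUnit_left (isUnit_of_mul_isUnit_right ht),
      isUnit_of_mul_isUnit_right (isUnit_of_mul_isUnit_right ht)⟩
  refine remove2 hS hW hfam h hh0 a b d e0 e1 c ?_
  refine good_transfer hS hW ((ft_q2 a b d e0 e1 c).ft_opn (cp2 h)) (cp2 b) (cp2 (a * d)) ?_
  have hB : Good (MW S W k) (P1 k) (fun V _ _ x => q1 (V := V) d b a x = 0 ∧ IsUnit (pv x.1 h)) :=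
    add1 hS hW hfam h hh0 d b a (good_sigma hW hfam a b d ha hb hd)
  let β : Crd (P1 k) :=
    { val := fun V _ _ x => pv x.1 b + 2 * pv x.1 d * x.2
      nat := fun f x => by
        rw [map_add, map_mul, map_mul, pv_nat, pv_nat, map_ofNat] }
  let ε : Crd (P1 k) :=
    { val := fun V _ _ x => pv x.1 e0 + pv x.1 e1 * x.2
      nat := fun f x => by
        rw [map_add, map_mul, pv_nat, pv_nat] }
  have hβ : ∀ (V : Type) [CommRing V] [Algebra k V] (y : (P1 k).obj V),
      q1 d b a y = 0 ∧ IsUnit (pv y.1 h) → IsUnit (β.val V y) := by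
    rintro V _ _ ⟨t, x⟩ ⟨h1, h2⟩
    have h3 := (hu V t h2).2.1
    have h4 : (β.val V (t, x)) * (β.val V (t, x)) = pv t D := by
      simp only [β, hDdef, pv_sub, pv_pow, pv_mul, pv_four]
      simp only [q1] at h1
      linear_combination 4 * pv t d * h1
    rw [← h4] at h3
    exact isUnit_of_mul_isUnit_left h3
  have hdisc : ∀ (V : Type) [CommRing V] [Algebra k V] (y : (P1 k).obj V),
      q1 d b a y = 0 → (cdisc β ε (cp1 d) (cp1 e1) (cp1 c)).val V y =
        pv y.1 (Delta a b d e0 e1 c) := by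
    rintro V _ _ ⟨t, x⟩ h1
    rw [pv_Delta]
    simp only [cdisc, β, ε, cp1]
    simp only [q1] at h1
    linear_combination (4 * pv t c * pv t d - pv t e1 ^ 2) * h1
  have h5 := good_lin hS hW hB β ε (cp1 d) (cp1 e1) (cp1 c) hβ (by
    rcases hg with hg | hg
    · left
      rintro V _ _ y ⟨h1, h2⟩
      rw [hdisc V y h1, hg, pv_zero]
    · right
      rintro V _ _ y ⟨h1, h2⟩
      rw [hdisc V y h1, ← hg]
      exact (hu V y.1 h2).2.2)
  refine h5.iso (E' := (P2 k).prod line)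
    (fun V _ _ (x : (((P1 k).prod line).prod line).obj V) =>
      (((x.1.1.1, x.1.2), x.2 + x.1.1.2 * x.1.2), pv x.1.1.1 d * x.1.1.2))
    (fun V _ _ (x : ((P2 k).prod line).obj V) =>
      (((x.1.1.1, x.2 * Ring.inverse (pv x.1.1.1 d)), x.1.1.2),
        x.1.2 - x.2 * Ring.inverse (pv x.1.1.1 d) * x.1.1.2)) ?_ ?_ ?_ ?_ ?_
  · rintro V _ _ ⟨⟨⟨t, θ⟩, u⟩, v⟩ ⟨⟨h1, h2⟩, h3⟩
    simp only [q1] at h1
    simp only [β, ε, cp1] at h3
    refine ⟨⟨?_, h2⟩, ?_⟩
    · simp only [q2]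
      linear_combination h3 + u ^ 2 * h1
    · simp only [cp2, pv_mul]
      linear_combination pv t d * h1
  · rintro V _ _ ⟨⟨⟨t, v0⟩, v1⟩, θ⟩ ⟨⟨h1, h2⟩, h3⟩
    have hdu := (hu V t h2).1
    have h4 : pv t d * Ring.inverse (pv t d) = 1 := Ring.mul_inverse_cancel _ hdu
    simp only [q2] at h1
    simp only [cp2, pv_mul] at h3
    have h6 : pv t d * (θ * Ring.inverse (pv t d)) ^ 2 + pv t b * (θ * Ring.inverse (pv t d)) +
        pv t a = 0 := by
      apply hdu.mul_right_eq_zero.1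
      have h7 : pv t d ^ 2 * Ring.inverse (pv t d) ^ 2 = 1 := by rw [← mul_pow, h4, one_pow]
      linear_combination h3 + θ ^ 2 * h7 + pv t b * θ * h4
    refine ⟨⟨h6, h2⟩, ?_⟩
    simp only [β, ε, cp1]
    linear_combination h1 - v0 ^ 2 * h6
  · rintro V _ _ ⟨⟨⟨t, θ⟩, u⟩, v⟩ ⟨⟨h1, h2⟩, h3⟩
    have h4 : pv t d * Ring.inverse (pv t d) = 1 := Ring.mul_inverse_cancel _ (hu V t h2).1
    have h5 : pv t d * θ * Ring.inverse (pv t d) = θ := by linear_combination θ * h4
    refine Prod.ext (Prod.ext (Prod.ext rfl ?_) rfl) ?_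
    · exact h5
    · change v + θ * u - pv t d * θ * Ring.inverse (pv t d) * u = v
      rw [h5]
      ring
  · rintro V _ _ ⟨⟨⟨t, v0⟩, v1⟩, θ⟩ ⟨⟨h1, h2⟩, h3⟩
    have h4 : pv t d * Ring.inverse (pv t d) = 1 := Ring.mul_inverse_cancel _ (hu V t h2).1
    refine Prod.ext (Prod.ext rfl ?_) ?_
    · exact sub_add_cancel _ _
    · change pv t d * (θ * Ring.inverse (pv t d)) = θ
      linear_combination θ * h4
  · rintro V V' _ _ _ _ f ⟨⟨⟨t, θ⟩, u⟩, v⟩ _
    refine Prod.ext (Prod.ext rfl ?_) ?_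
    · change f (v + θ * u) = f v + f θ * f u
      rw [map_add, map_mul]
    · change f (pv t d * θ) = pv (fun i => f (t i)) d * f θ
      rw [map_mul, pv_nat]

/-- nondegenerate leading form `b v0 v1` -/
theorem good_hyperbolic [Finite k] (hS : SOps S) (hW : S W) (hfam : Fam S)
    (b e0 e1 c : R2 k) (hb0 : b ≠ 0) :
    Good (MW S W k) (P2 k) (fun V _ _ x => q2 (V := V) 0 b 0 e0 e1 c x = 0) := by
  obtain ⟨g, hg0, hg⟩ := exists_factor (Delta 0 b 0 e0 e1 c)
  set h : R2 k := b * g with hh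
  have hh0 : h ≠ 0 := mul_ne_zero hb0 hg0
  have hu : ∀ (V : Type) [CommRing V] [Algebra k V] (t : Fin 2 → V), IsUnit (pv t h) →
      IsUnit (pv t b) ∧ IsUnit (pv t g) := by
    intro V _ _ t ht
    rw [hh, pv_mul] at ht
    exact ⟨isUnit_of_mul_isUnit_left ht, isUnit_of_mul_isUnit_right ht⟩
  refine remove2 hS hW hfam h hh0 0 b 0 e0 e1 c ?_
  have hB := good_open (k := k) hS hW hfam h
  have hdisc : ∀ (V : Type) [CommRing V] [Algebra k V] (t : Fin 2 → V),
      (cdisc (ca b) (ca e1) (ca 0) (ca e0) (ca c)).val V t =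
        pv t (Delta 0 b 0 e0 e1 c) := by
    intro V _ _ t
    rw [pv_Delta]
    simp only [cdisc, ca, map_zero]
    ring
  have h5 := good_lin hS hW hB (ca b) (ca e1) (ca 0) (ca e0) (ca c)
    (fun V _ _ y hy => (hu V y hy).1) (by
    rcases hg with hg | hg
    · left
      intro V _ _ y h1
      rw [hdisc V y, hg, pv_zero]
    · right
      intro V _ _ y h1
      rw [hdisc V y, ← hg]
      exact (hu V y h1).2)
  refine h5.iso (E' := P2 k)
    (fun V _ _ (x : (P2 k).obj V) => ((x.1.1, x.2), x.1.2))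
    (fun V _ _ (x : (P2 k).obj V) => ((x.1.1, x.2), x.1.2)) ?_ ?_ (fun _ _ _ _ _ => rfl)
    (fun _ _ _ _ _ => rfl) (fun _ _ _ _ _ _ _ _ _ => rfl)
  · rintro V _ _ ⟨⟨t, u⟩, v⟩ ⟨h1, h2⟩
    refine ⟨?_, h1⟩
    simp only [ca, map_zero] at h2
    simp only [q2, pv_zero]
    linear_combination h2
  · rintro V _ _ ⟨⟨t, v0⟩, v1⟩ ⟨h1, h2⟩
    refine ⟨h2, ?_⟩
    simp only [ca, map_zero]
    simp only [q2, pv_zero] at h1
    linear_combination h1

end Pool.Agent.Helper36.CU
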