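import Pool.Agent.Helper36.CU.Remove

/-!
# Conic bundles over the plane whose leading form has a double root
-/

namespace Pool.Agent.Helper36.CU

open TensorProduct MvPolynomial
open Pool.Agent.Helper62.RO
open Pool.Agent.Helper87.CC
open Pool.Agent.Helper36.TQ

variable {S : ∀ (A : Type) [CommRing A], Prop} {W : Type} [CommRing W] {k : Type} [Field k]

theorem pv_mul {V : Type} [CommRing V] [Algebra k V] (t : Fin 2 → V) (a b : R2 k) :
    pv t (a * b) = pv t a * pv t b := map_mul _ _ _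

theorem pv_add {V : Type} [CommRing V] [Algebra k V] (t : Fin 2 → V) (a b : R2 k) :
    pv t (a + b) = pv t a + pv t b := map_add _ _ _

theorem pv_sub {V : Type} [CommRing V] [Algebra k V] (t : Fin 2 → V) (a b : R2 k) :
    pv t (a - b) = pv t a - pv t b := map_sub _ _ _

theorem pv_pow {V : Type} [CommRing V] [Algebra k V] (t : Fin 2 → V) (a : R2 k) (n : ℕ) :
    pv t (a ^ n) = pv t a ^ n := map_pow _ _ _

theorem pv_two {V : Type} [CommRing V] [Algebra k V] (t : Fin 2 → V) :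
    pv t (2 : R2 k) = 2 := map_ofNat _ _

theorem pv_zero {V : Type} [CommRing V] [Algebra k V] (t : Fin 2 → V) :
    pv t (0 : R2 k) = 0 := map_zero _

theorem pv_one {V : Type} [CommRing V] [Algebra k V] (t : Fin 2 → V) :
    pv t (1 : R2 k) = 1 := map_one _

theorem pv_four {V : Type} [CommRing V] [Algebra k V] (t : Fin 2 → V) :
    pv t (4 : R2 k) = 4 := map_ofNat _ _

theorem inv_pv {V V' : Type} [CommRing V] [Algebra k V] [CommRing V'] [Algebra k V']
    (f : V →ₐ[k] V') (t : Fin 2 → V) (a : R2 k) (h : IsUnit (pv t a)) :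
    f (Ring.inverse (pv t a)) = Ring.inverse (pv (fun i => f (t i)) a) := by
  rw [← pv_nat]
  exact map_inv_unit (f : V →+* V') h

/-- the linear case -/
theorem dir_one [Finite k] (hS : SOps S) (hW : S W) (hfam : Fam S)
    (a b d e0 e1 c r s : R2 k) (h1 : s ^ 2 * a + s * r * b + r ^ 2 * d = 0)
    (h2 : s * b + 2 * r * d = 0) (hs : s ≠ 0) (he : s * e0 + r * e1 ≠ 0) :
    Good (MW S W k) (P2 k) (fun V _ _ x => q2 (V := V) a b d e0 e1 c x = 0) := by
  set h : R2 k := s * (s * e0 + r * e1) with hh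
  have hh0 : h ≠ 0 := mul_ne_zero hs he
  refine remove2 hS hW hfam h hh0 a b d e0 e1 c ?_
  have hB : Good (MW S W k) (P1 k) (fun V _ _ x => IsUnit (pv (V := V) x.1 h)) :=
    good_line hS (good_open hS hW hfam h)
  let g : Crd (P1 k) := cq1 d (s * e1) (s ^ 2 * c)
  have h3 := good_solve hB (cp1 h) g (fun V _ _ y hy => hy)
  have hsu : ∀ (V : Type) [CommRing V] [Algebra k V] (t : Fin 2 → V), IsUnit (pv t h) →
      IsUnit (pv t s) := by
    intro V _ _ t ht
    rw [hh, pv_mul] at ht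
    exact isUnit_of_mul_isUnit_left ht
  have key : ∀ (V : Type) [CommRing V] [Algebra k V] (t : Fin 2 → V) (v0 v1 : V),
      pv t s ^ 2 * q2 a b d e0 e1 c ((t, v0), v1) =
        pv t h * v0 + q1 d (s * e1) (s ^ 2 * c) (t, pv t s * v1 - pv t r * v0) := by
    intro V _ _ t v0 v1
    have h4 : pv t (s ^ 2 * a + s * r * b + r ^ 2 * d) = 0 := by rw [h1, pv_zero]
    have h5 : pv t (s * b + 2 * r * d) = 0 := by rw [h2, pv_zero]
    simp only [pv_add, pv_mul, pv_pow, pv_two] at h4 h5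
    simp only [q1, q2, hh, pv_add, pv_mul, pv_pow]
    linear_combination v0 ^ 2 * h4 + (pv t s * v0 * v1 - pv t r * v0 ^ 2) * h5
  refine h3.iso (E' := P2 k)
    (fun V _ _ (x : ((P1 k).prod line).obj V) =>
      ((x.1.1, x.2), (x.1.2 + pv x.1.1 r * x.2) * Ring.inverse (pv x.1.1 s)))
    (fun V _ _ (x : (P2 k).obj V) =>
      ((x.1.1, pv x.1.1 s * x.2 - pv x.1.1 r * x.1.2), x.1.2)) ?_ ?_ ?_ ?_ ?_
  · rintro V _ _ ⟨⟨t, v⟩, u⟩ ⟨h4, h5⟩
    have hu := hsu V t h4
    have h6 : pv t s * Ring.inverse (pv t s) = 1 := Ring.mul_inverse_cancel _ hu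
    refine ⟨?_, h4⟩
    have h7 := key V t u ((v + pv t r * u) * Ring.inverse (pv t s))
    have h8 : pv t s * ((v + pv t r * u) * Ring.inverse (pv t s)) - pv t r * u = v := by
      linear_combination (v + pv t r * u) * h6
    rw [h8] at h7
    have h5 : pv t h * u + q1 d (s * e1) (s ^ 2 * c) (t, v) = 0 := h5
    rw [h5] at h7
    exact (hu.pow 2).mul_right_eq_zero.1 h7
  · rintro V _ _ ⟨⟨t, v0⟩, v1⟩ ⟨h4, h5⟩
    refine ⟨h5, ?_⟩
    have h7 := key V t v0 v1
    rw [h4, mul_zero] at h7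
    exact h7.symm
  · rintro V _ _ ⟨⟨t, v⟩, u⟩ ⟨h4, h5⟩
    have hu := hsu V t h4
    have h6 : pv t s * Ring.inverse (pv t s) = 1 := Ring.mul_inverse_cancel _ hu
    refine Prod.ext (Prod.ext rfl ?_) rfl
    change pv t s * ((v + pv t r * u) * Ring.inverse (pv t s)) - pv t r * u = v
    linear_combination (v + pv t r * u) * h6
  · rintro V _ _ ⟨⟨t, v0⟩, v1⟩ ⟨h4, h5⟩
    have hu := hsu V t h5
    have h6 : pv t s * Ring.inverse (pv t s) = 1 := Ring.mul_inverse_cancel _ hu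
    refine Prod.ext rfl ?_
    change (pv t s * v1 - pv t r * v0 + pv t r * v0) * Ring.inverse (pv t s) = v1
    linear_combination v1 * h6
  · rintro V V' _ _ _ _ f ⟨⟨t, v⟩, u⟩ ⟨h4, h5⟩
    have hu := hsu V t h4
    refine Prod.ext rfl ?_
    change f ((v + pv t r * u) * Ring.inverse (pv t s)) =
      (f v + pv (fun i => f (t i)) r * f u) * Ring.inverse (pv (fun i => f (t i)) s)
    rw [map_mul, map_add, map_mul, inv_pv f t s hu, pv_nat]

/-- the case of a product -/
theorem dir_zero [Finite k] (hS : SOps S) (hW : S W) (hfam : Fam S)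
    (a b d e0 e1 c r s : R2 k) (h1 : s ^ 2 * a + s * r * b + r ^ 2 * d = 0)
    (h2 : s * b + 2 * r * d = 0) (hs : s ≠ 0) (he : s * e0 + r * e1 = 0)
    (hsurf : Good (MW S W k) (P1 k) (fun V _ _ x => q1 (V := V) d e1 c x = 0 ∧
      IsUnit (pv x.1 s))) :
    Good (MW S W k) (P2 k) (fun V _ _ x => q2 (V := V) a b d e0 e1 c x = 0) := by
  refine remove2 hS hW hfam s hs a b d e0 e1 c ?_
  have key : ∀ (V : Type) [CommRing V] [Algebra k V] (t : Fin 2 → V) (v0 z : V),
      IsUnit (pv t s) →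
      q2 a b d e0 e1 c ((t, v0), z + pv t r * Ring.inverse (pv t s) * v0) = q1 d e1 c (t, z) := by
    intro V _ _ t v0 z hu
    have h3 : pv t s * Ring.inverse (pv t s) = 1 := Ring.mul_inverse_cancel _ hu
    have h4 : pv t (s ^ 2 * a + s * r * b + r ^ 2 * d) = 0 := by rw [h1, pv_zero]
    have h5 : pv t (s * b + 2 * r * d) = 0 := by rw [h2, pv_zero]
    have h6 : pv t (s * e0 + r * e1) = 0 := by rw [he, pv_zero]
    simp only [pv_add, pv_mul, pv_pow, pv_two] at h4 h5 h6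
    simp only [q1, q2]
    set i := Ring.inverse (pv t s)
    set S' := pv t s
    set R' := pv t r
    set A := pv t a
    set B := pv t b
    set D := pv t d
    set E0 := pv t e0
    set E1 := pv t e1
    have h7 : i ^ 2 * S' ^ 2 = 1 := by
      rw [← mul_pow, mul_comm i S', h3, one_pow]
    have h8 : A + B * (R' * i) + D * (R' * i) ^ 2 = 0 := by
      linear_combination i ^ 2 * h4 + (-A) * h7 + (- B * R' * i) * h3
    have h9 : B + 2 * D * (R' * i) = 0 := by
      linear_combination i * h5 + (- B) * h3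
    have h10 : E0 + E1 * (R' * i) = 0 := by
      linear_combination i * h6 + (- E0) * h3
    linear_combination v0 ^ 2 * h8 + v0 * z * h9 + v0 * h10
  refine (good_line hS hsurf).iso (E' := P2 k)
    (fun V _ _ (x : ((P1 k).prod line).obj V) =>
      ((x.1.1, x.2), x.1.2 + pv x.1.1 r * Ring.inverse (pv x.1.1 s) * x.2))
    (fun V _ _ (x : (P2 k).obj V) =>
      ((x.1.1, x.2 - pv x.1.1 r * Ring.inverse (pv x.1.1 s) * x.1.2), x.1.2)) ?_ ?_ ?_ ?_ ?_
  · rintro V _ _ ⟨⟨t, z⟩, u⟩ ⟨h4, h5⟩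
    refine ⟨?_, h5⟩
    exact (key V t u z h5).trans h4
  · rintro V _ _ ⟨⟨t, v0⟩, v1⟩ ⟨h4, h5⟩
    refine ⟨?_, h5⟩
    have h6 := key V t v0 (v1 - pv t r * Ring.inverse (pv t s) * v0) h5
    rw [sub_add_cancel] at h6
    exact h6.symm.trans h4
  · rintro V _ _ ⟨⟨t, z⟩, u⟩ ⟨h4, h5⟩
    refine Prod.ext (Prod.ext rfl ?_) rfl
    exact add_sub_cancel_right _ _
  · rintro V _ _ ⟨⟨t, v0⟩, v1⟩ ⟨h4, h5⟩
    refine Prod.ext rfl ?_
    exact sub_add_cancel _ _
  · rintro V V' _ _ _ _ f ⟨⟨t, z⟩, u⟩ ⟨h4, h5⟩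
    refine Prod.ext rfl ?_
    change f (z + pv t r * Ring.inverse (pv t s) * u) =
      f z + pv (fun i => f (t i)) r * Ring.inverse (pv (fun i => f (t i)) s) * f u
    rw [map_add, map_mul, map_mul, inv_pv f t s h5, pv_nat]

/-- exchanging the two coordinates of the fibres -/
theorem good_swap {a b d e0 e1 c : R2 k}
    (h : Good (MW S W k) (P2 k) (fun V _ _ x => q2 (V := V) d b a e1 e0 c x = 0)) :
    Good (MW S W k) (P2 k) (fun V _ _ x => q2 (V := V) a b d e0 e1 c x = 0) := by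
  have key : ∀ (V : Type) [CommRing V] [Algebra k V] (x : (P2 k).obj V),
      q2 a b d e0 e1 c ((x.1.1, x.2), x.1.2) = q2 d b a e1 e0 c x := by
    intro V _ _ x
    simp only [q2]
    ring
  refine h.iso (E' := P2 k)
    (fun V _ _ (x : (P2 k).obj V) => ((x.1.1, x.2), x.1.2))
    (fun V _ _ (x : (P2 k).obj V) => ((x.1.1, x.2), x.1.2)) ?_ ?_ (fun _ _ _ _ _ => rfl)
    (fun _ _ _ _ _ => rfl) (fun _ _ _ _ _ _ _ _ _ => rfl)
  · intro V _ _ x hx
    exact (key V x).trans hx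
  · intro V _ _ x hx
    exact (key V ((x.1.1, x.2), x.1.2)).symm.trans hx

end Pool.Agent.Helper36.CU
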