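import Pool.Agent.Helper36.CU.Conic

/-!
# Conic bundles over the plane: the final form
-/

namespace Pool.Agent.Helper36.CU

open TensorProduct MvPolynomial
open Pool.Agent.Helper62.RO
open Pool.Agent.Helper87.CC
open Pool.Agent.Helper36.TQ

variable {S : ∀ (A : Type) [CommRing A], Prop} {W : Type} [CommRing W] {k : Type} [Field k]

theorem surf_of_cubic (hS : SOps S)
    (hcs : ∀ g : MvPolynomial (Fin 3) k, g.totalDegree ≤ 3 →
      S (Ten W (MvPolynomial (Fin 3) k ⧸ Ideal.span {g}))) : Surf S W k := by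
  intro a b c ha hb hc
  let g : MvPolynomial (Fin 3) k := rename Fin.castSucc a * X 2 ^ 2 +
    rename Fin.castSucc b * X 2 + rename Fin.castSucc c
  have hr : ∀ (p : R2 k) (d : ℕ), p.totalDegree ≤ d →
      (rename Fin.castSucc p : MvPolynomial (Fin 3) k).totalDegree ≤ d :=
    fun p d hp => (totalDegree_rename_le _ _).trans hp
  have hg : g.totalDegree ≤ 3 :=
    td_add (td_add (td_mul (hr a 1 ha) (td_sq (td_X 2 le_rfl)) le_rfl)
      (td_mul (hr b 2 hb) (td_X 2 le_rfl) le_rfl)) (hr c 3 hc)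
  have h1 := (good_vs_iff (k := k) (W := W) hS ({g} : Set (MvPolynomial (Fin 3) k))).2 (hcs g hg)
  have hev : ∀ (V : Type) [CommRing V] [Algebra k V] (x : Fin 3 → V),
      aeval x g = q1 a b c (fun i : Fin 2 => x i.castSucc, x 2) := by
    intro V _ _ x
    simp only [g, map_add, map_mul, map_pow, aeval_X, aeval_rename, q1]
    rfl
  refine h1.iso (E' := P1 k)
    (fun V _ _ (x : (Aff (k := k) (Fin 3)).obj V) => (fun i : Fin 2 => x i.castSucc, x 2))
    (fun V _ _ (x : (P1 k).obj V) => ![x.1 0, x.1 1, x.2]) ?_ ?_ ?_ ?_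
    (fun _ _ _ _ _ _ _ _ _ => rfl)
  · intro V _ _ x hx
    exact (hev V x).symm.trans (hx g rfl)
  · rintro V _ _ ⟨t, z⟩ hx f hf
    rw [Set.mem_singleton_iff.1 hf, hev]
    have h2 : (fun i : Fin 2 => ![t 0, t 1, z] i.castSucc) = t := by
      funext i
      fin_cases i <;> rfl
    rw [h2]
    exact hx
  · intro V _ _ x _
    funext i
    fin_cases i <;> rfl
  · rintro V _ _ ⟨t, z⟩ _
    refine Prod.ext ?_ rfl
    funext i
    fin_cases i <;> rfl

/-- **Conic bundles over the plane.** -/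
theorem conic_plane [Finite k] (hS : SOps S) (hfam : Fam S) (hW : S W)
    (hcs : ∀ g : MvPolynomial (Fin 3) k, g.totalDegree ≤ 3 →
      S (Ten W (MvPolynomial (Fin 3) k ⧸ Ideal.span {g})))
    (a b d e0 e1 c : MvPolynomial (Fin 2) k) (ha : a.totalDegree ≤ 1) (hb : b.totalDegree ≤ 1)
    (hd : d.totalDegree ≤ 1) (he0 : e0.totalDegree ≤ 2) (he1 : e1.totalDegree ≤ 2)
    (hc : c.totalDegree ≤ 3) :
    S (Ten W (MvPolynomial (Fin 2) (MvPolynomial (Fin 2) k) ⧸ Ideal.span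
      {C a * X 0 ^ 2 + C b * X 0 * X 1 + C d * X 1 ^ 2 + C e0 * X 0 + C e1 * X 1 + C c})) := by
  obtain ⟨p, hp⟩ := rep_over (rep_aff (k := k) (Fin 2))
    ({C a * X 0 ^ 2 + C b * X 0 * X 1 + C d * X 1 ^ 2 + C e0 * X 0 + C e1 * X 1 + C c} :
      Set (MvPolynomial (Fin 2) (MvPolynomial (Fin 2) k)))
  have h1 := good_conic hS hW hfam (surf_of_cubic hS hcs) a b d e0 e1 c ha hb hd he0 he1 hc
  refine (good_mem hS (h1.iso (E' := (Aff (k := k) (Fin 2)).prod (Aff (Fin 2)))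
    (fun V _ _ (x : (P2 k).obj V) => (x.1.1, ![x.1.2, x.2]))
    (fun V _ _ (x : ((Aff (k := k) (Fin 2)).prod (Aff (Fin 2))).obj V) => ((x.1, x.2 0), x.2 1))
    ?_ ?_ (fun _ _ _ _ _ => rfl) ?_ ?_) hp).2
  · rintro V _ _ ⟨⟨t, v0⟩, v1⟩ h2
    refine ⟨aeval t, ?_, ?_⟩
    · funext i
      exact aeval_X t i
    · intro g hg
      rw [Set.mem_singleton_iff.1 hg]
      simp only [q2] at h2
      simp only [eval₂_add, eval₂_mul, eval₂_C, eval₂_X, eval₂_pow, Matrix.cons_val_zero,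
        Matrix.cons_val_one]
      exact h2
  · rintro V _ _ ⟨t, x⟩ ⟨f, hf, h2⟩
    have h3 := h2 _ rfl
    have hf : (fun i => f (X i)) = t := hf
    have h4 : f = aeval t := by
      apply MvPolynomial.algHom_ext
      intro i
      rw [aeval_X, ← hf]
    subst h4
    simp only [eval₂_add, eval₂_mul, eval₂_C, eval₂_X, eval₂_pow] at h3
    exact h3
  · rintro V _ _ ⟨t, x⟩ _
    refine Prod.ext rfl ?_
    funext i
    fin_cases i <;> rfl
  · rintro V V' _ _ _ _ f ⟨⟨t, v0⟩, v1⟩ _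
    refine Prod.ext rfl ?_
    funext i
    fin_cases i <;> rfl

/-- The same for multipliers. -/
theorem conic_plane_mult [Finite k] (hS : SOps S) (hfam : Fam S)
    (hcs : ∀ g : MvPolynomial (Fin 3) k, g.totalDegree ≤ 3 → ∀ (W : Type) [CommRing W], S W →
      S (Ten W (MvPolynomial (Fin 3) k ⧸ Ideal.span {g})))
    (a b d e0 e1 c : MvPolynomial (Fin 2) k) (ha : a.totalDegree ≤ 1) (hb : b.totalDegree ≤ 1)
    (hd : d.totalDegree ≤ 1) (he0 : e0.totalDegree ≤ 2) (he1 : e1.totalDegree ≤ 2)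
    (hc : c.totalDegree ≤ 3) (W : Type) [CommRing W] (hW : S W) :
    S (Ten W (MvPolynomial (Fin 2) (MvPolynomial (Fin 2) k) ⧸ Ideal.span
      {C a * X 0 ^ 2 + C b * X 0 * X 1 + C d * X 1 ^ 2 + C e0 * X 0 + C e1 * X 1 + C c})) :=
  conic_plane hS hfam hW (fun g hg => hcs g hg W hW) a b d e0 e1 c ha hb hd he0 he1 hc

end Pool.Agent.Helper36.CU
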