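import Pool.Agent.Helper36.CU.Tools

/-!
# Quadratic equations over the plane: the part over a curve
-/

namespace Pool.Agent.Helper36.CU

open TensorProduct MvPolynomial
open Pool.Agent.Helper62.RO
open Pool.Agent.Helper87.CC
open Pool.Agent.Helper36.TQ

variable {S : ∀ (A : Type) [CommRing A], Prop} {W : Type} [CommRing W] {k : Type} [Field k]

/-- systems of polynomial equations over a representing ring -/
theorem rep_over {E : Fun k} {p : Pr E} {B : Type} [CommRing B] [Algebra k B] {b : E.obj B}
    (hb : Rep E p B b) {m : ℕ} (T : Set (MvPolynomial (Fin m) B)) :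
    ∃ a, Rep (E.prod (Aff (Fin m))) (fun V _ _ x => ∃ f : B →ₐ[k] V, E.map f b = x.1 ∧
      ∀ g ∈ T, MvPolynomial.eval₂ (f : B →+* V) x.2 g = 0)
      (MvPolynomial (Fin m) B ⧸ Ideal.span T) a := by
  let π : MvPolynomial (Fin m) B →ₐ[k] (MvPolynomial (Fin m) B ⧸ Ideal.span T) :=
    Ideal.Quotient.mkₐ k (Ideal.span T)
  let ι : B →ₐ[k] MvPolynomial (Fin m) B := IsScalarTower.toAlgHom k B _
  have hι : ∀ c : B, ι c = C c := fun c => rfl
  have key : ∀ (V : Type) [CommRing V] [Algebra k V] (f : MvPolynomial (Fin m) B →ₐ[k] V),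
      eval₂Hom ((f.comp ι : B →ₐ[k] V) : B →+* V) (fun i => f (X i)) =
        (f : MvPolynomial (Fin m) B →+* V) := by
    intro V _ _ f
    apply MvPolynomial.ringHom_ext
    · intro r
      rw [eval₂Hom_C]
      rfl
    · intro i
      rw [eval₂Hom_X']
      rfl
  refine ⟨(E.map (π.comp ι) b, fun i => π (X i)), ⟨?_, ?_, ?_⟩⟩
  · intro V _ _ f
    refine ⟨f.comp (π.comp ι), ?_, ?_⟩
    · exact E.comp_map _ _ _
    · intro g hg
      have h1 := RingHom.congr_fun (key V (f.comp π)) g
      have h3 : π g = 0 := Ideal.Quotient.eq_zero_iff_mem.2 (Ideal.subset_span hg)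
      have h4 : (f.comp π : MvPolynomial (Fin m) B →+* V) g = f (π g) := rfl
      rw [h4, h3, map_zero] at h1
      exact h1
  · rintro V _ _ ⟨t, x⟩ ⟨f, hf, hx⟩
    have hf : E.map f b = t := hf
    let F0 : MvPolynomial (Fin m) B →ₐ[k] V :=
      { eval₂Hom (f : B →+* V) x with
        commutes' := fun r => by
          change eval₂Hom (f : B →+* V) x (C (algebraMap k B r)) = _
          rw [eval₂Hom_C]
          exact f.commutes r }
    have hF0 : ∀ g, F0 g = eval₂ (f : B →+* V) x g := fun _ => rfl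
    have h1 : ∀ a ∈ Ideal.span T, F0 a = 0 := by
      have : Ideal.span T ≤ RingHom.ker F0 := by
        rw [Ideal.span_le]
        intro g hg
        exact hx g hg
      exact fun a ha => this ha
    refine ⟨Ideal.Quotient.liftₐ (Ideal.span T) F0 h1, Prod.ext ?_ ?_⟩
    · change E.map _ (E.map _ b) = t
      rw [← E.comp_map, ← hf]
      congr 1
      ext c
      change F0 (C c) = f c
      rw [hF0, eval₂_C]
      rfl
    · funext i
      change F0 (X i) = x i
      rw [hF0, eval₂_X]
  · intro V _ _ f g hfg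
    apply Ideal.Quotient.algHom_ext
    have h1 : E.map f (E.map _ b) = E.map g (E.map _ b) := congrArg Prod.fst hfg
    rw [← E.comp_map, ← E.comp_map] at h1
    have h2 := hb.uniq V _ _ h1
    have h3 : (fun i => f (π (X i))) = fun i => g (π (X i)) := congrArg Prod.snd hfg
    have h5 : (f.comp π : MvPolynomial (Fin m) B →+* V) = (g.comp π :) := by
      rw [← key V (f.comp π), ← key V (g.comp π)]
      have h6 : (f.comp π).comp ι = (g.comp π).comp ι := h2
      rw [h6]
      change eval₂Hom _ (fun i => f (π (X i))) = eval₂Hom _ (fun i => g (π (X i)))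
      rw [h3]
    exact AlgHom.ext fun b => RingHom.congr_fun h5 b

/-- evaluation of polynomials with polynomial coefficients -/
noncomputable def ev2 {V : Type} [CommRing V] [Algebra k V] {n m : ℕ} (t : Fin n → V)
    (x : Fin m → V) : MvPolynomial (Fin m) (MvPolynomial (Fin n) k) →+* V :=
  eval₂Hom ((aeval t : MvPolynomial (Fin n) k →ₐ[k] V) : MvPolynomial (Fin n) k →+* V) x

theorem ev2_C {V : Type} [CommRing V] [Algebra k V] {n m : ℕ} (t : Fin n → V)
    (x : Fin m → V) (a : MvPolynomial (Fin n) k) : ev2 (k := k) t x (C a) = aeval t a := by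
  rw [ev2, eval₂Hom_C]
  rfl

theorem ev2_X {V : Type} [CommRing V] [Algebra k V] {n m : ℕ} (t : Fin n → V)
    (x : Fin m → V) (i : Fin m) : ev2 (k := k) t x (X i) = x i := by
  rw [ev2, eval₂Hom_X']

theorem totalDegree_map_le' {A B : Type} [CommRing A] [CommRing B] {σ : Type} (φ : A →+* B)
    (p : MvPolynomial σ A) : (map φ p).totalDegree ≤ p.totalDegree := by
  classical
  exact Finset.sup_mono (support_map_subset φ p)

theorem ft_quot_mv {B : Type} [CommRing B] [Algebra k B] (hB : Algebra.FiniteType k B) {m : ℕ}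
    (T : Set (MvPolynomial (Fin m) B)) :
    Algebra.FiniteType k (MvPolynomial (Fin m) B ⧸ Ideal.span T) := by
  have h2 : Algebra.FiniteType k (MvPolynomial (Fin m) B) :=
    Algebra.FiniteType.trans (S := B) inferInstance inferInstance
  exact Algebra.FiniteType.of_surjective (Ideal.Quotient.mkₐ k _) Ideal.Quotient.mk_surjective

/-- coordinate rings of plane curves -/
abbrev QB (h : MvPolynomial (Fin 2) k) : Type := MvPolynomial (Fin 2) k ⧸ Ideal.span {h}

/-- quadratic equations over plane curves -/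
theorem good_over_curve [Finite k] (hW : S W) (hfam : Fam S) {m : ℕ}
    (h : MvPolynomial (Fin 2) k) (hh : h ≠ 0) (f : MvPolynomial (Fin m) (MvPolynomial (Fin 2) k))
    (hf : f.totalDegree ≤ 2) :
    Good (MW S W k) ((Aff (k := k) (Fin 2)).prod (Aff (Fin m)))
      (fun V _ _ x => aeval x.1 h = 0 ∧ ev2 x.1 x.2 f = 0) := by
  classical
  have hBft : Algebra.FiniteType k (QB h) :=
    Algebra.FiniteType.of_surjective (Ideal.Quotient.mkₐ k _) Ideal.Quotient.mk_surjective
  have h1 := hfam (QB h) W (ftZ (k := k) hBft) (Pool.Agent.Helper62.TS.dim_plane_curve_le hh) hW m ∅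
    (map (Ideal.Quotient.mk (Ideal.span {h})) f) (by simp) ((totalDegree_map_le' _ _).trans hf)
  let T : Set (MvPolynomial (Fin m) (QB h)) := insert (map (Ideal.Quotient.mk (Ideal.span {h})) f)
    ((∅ : Finset (MvPolynomial (Fin m) (QB h))) : Set (MvPolynomial (Fin m) (QB h)))
  -- the standard point
  have hb2 : Rep (Aff (k := k) (Fin 2)) (VS {h}) (QB h) (fun i => Ideal.Quotient.mk _ (X i)) := by
    have h2 := (rep_aff (k := k) (Fin 2)).cls (fun f : ({h} : Set (MvPolynomial (Fin 2) k)) =>
      Crd.poly crd f.1)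
    have h3 : (Set.range fun j : ({h} : Set (MvPolynomial (Fin 2) k)) =>
        (Crd.poly (crd (k := k)) j.1).val (MvPolynomial (Fin 2) k) MvPolynomial.X) = {h} := by
      ext g
      constructor
      · rintro ⟨g, rfl⟩
        change MvPolynomial.aeval _ g.1 ∈ _
        have : MvPolynomial.aeval (fun i => (crd (k := k) i).val (MvPolynomial (Fin 2) k)
            MvPolynomial.X) g.1 = g.1 := MvPolynomial.aeval_X_left_apply g.1
        rw [this]
        exact g.2
      · intro hf
        exact ⟨⟨g, hf⟩, MvPolynomial.aeval_X_left_apply g⟩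
    rw [h3] at h2
    refine ⟨fun V _ _ f g hg => (h2.mem V f).2 ⟨g, hg⟩,
      fun V _ _ x hx => h2.ex V x ⟨trivial, fun g => hx g.1 g.2⟩, h2.uniq⟩
  obtain ⟨a, ha⟩ := rep_over hb2 T
  refine Good.congr ?_ ⟨_, _, _, a, ha, ft_quot_mv hBft T, h1⟩
  rintro V _ _ ⟨t, x⟩
  have hev : ∀ φ : QB h →ₐ[k] V, (fun i => φ (Ideal.Quotient.mk _ (X i))) = t →
      eval₂ (φ : QB h →+* V) x (map (Ideal.Quotient.mk (Ideal.span {h})) f) = ev2 t x f := by
    intro φ hφ
    rw [eval₂_map]
    have h4 : (φ : QB h →+* V).comp (Ideal.Quotient.mk (Ideal.span {h})) =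
        ((aeval t : MvPolynomial (Fin 2) k →ₐ[k] V) : MvPolynomial (Fin 2) k →+* V) := by
      have h5 : φ.comp (Ideal.Quotient.mkₐ k (Ideal.span {h})) = aeval t := by
        apply MvPolynomial.algHom_ext
        intro i
        rw [aeval_X, ← hφ]
        rfl
      exact RingHom.ext fun r => DFunLike.congr_fun h5 r
    rw [h4]
    rfl
  constructor
  · rintro ⟨φ, hφ, hg⟩
    have hφ : (fun i => φ (Ideal.Quotient.mk _ (X i))) = t := hφ
    refine ⟨?_, ?_⟩
    · have h5 : φ.comp (Ideal.Quotient.mkₐ k (Ideal.span {h})) = aeval t := by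
        apply MvPolynomial.algHom_ext
        intro i
        rw [aeval_X, ← hφ]
        rfl
      have h6 := DFunLike.congr_fun h5 h
      have h7 : (Ideal.Quotient.mkₐ k (Ideal.span {h})) h = 0 :=
        Ideal.Quotient.eq_zero_iff_mem.2 (Ideal.mem_span_singleton_self _)
      rw [AlgHom.comp_apply, h7, map_zero] at h6
      exact h6.symm
    · have h5 := hg _ (Set.mem_insert _ _)
      exact (hev φ hφ).symm.trans h5
  · rintro ⟨h4, h5⟩
    have h6 : ∀ a ∈ Ideal.span {h}, (aeval t : MvPolynomial (Fin 2) k →ₐ[k] V) a = 0 := by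
      intro a ha
      obtain ⟨c, rfl⟩ := Ideal.mem_span_singleton'.1 ha
      have h4 : aeval t h = 0 := h4
      rw [map_mul, h4, mul_zero]
    have h7 : (fun i => Ideal.Quotient.liftₐ (Ideal.span {h}) (aeval t) h6
        (Ideal.Quotient.mk _ (X i))) = t := by
      funext i
      change aeval t (X i) = t i
      rw [aeval_X]
    refine ⟨Ideal.Quotient.liftₐ (Ideal.span {h}) (aeval t) h6, h7, ?_⟩
    intro g hg
    have h8 : g = map (Ideal.Quotient.mk (Ideal.span {h})) f := by
      rcases Set.mem_insert_iff.1 hg with h9 | h9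
      · exact h9
      · simp at h9
    rw [h8]
    exact (hev _ h7).trans h5

theorem good_plane [Finite k] (hS : SOps S) (hW : S W) (hfam : Fam S) :
    Good (MW S W k) (Aff (k := k) (Fin 2)) (fun _ _ _ _ => True) :=
  (good_quadric hS hW hfam ∅ (by simp) 0 (by simp)).congr (fun _ _ _ _ => by simp)

theorem good_curve [Finite k] (hS : SOps S) (hW : S W) (hfam : Fam S)
    (h : MvPolynomial (Fin 2) k) :
    Good (MW S W k) (Aff (k := k) (Fin 2)) (fun V _ _ x => aeval x h = 0) :=
  ((good_vs_iff hS _).2 (few hS hfam hW (le_refl 2) h h)).congr (fun _ _ _ _ => by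
    simp [VS])

/-- the complement of a plane curve -/
theorem good_open [Finite k] (hS : SOps S) (hW : S W) (hfam : Fam S)
    (h : MvPolynomial (Fin 2) k) :
    Good (MW S W k) (Aff (k := k) (Fin 2)) (fun V _ _ x => IsUnit (aeval x h)) :=
  (good_opn hS (good_plane hS hW hfam) (ca h)
    ((good_curve hS hW hfam h).congr (fun _ _ _ _ => by
      constructor
      · intro h1
        exact ⟨trivial, h1⟩
      · rintro ⟨-, h1⟩
        exact h1))).congr (fun _ _ _ _ => by
      constructor
      · rintro ⟨-, h1⟩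
        exact h1
      · intro h1
        exact ⟨trivial, h1⟩)

end Pool.Agent.Helper36.CU
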