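import Pool.Agent.Helper36.TQ.Main

/-!
# Polynomials which vanish on coordinate subspaces
-/

namespace Pool.Agent.Helper36.CU

open MvPolynomial

section

variable {k σ : Type} [CommRing k]

theorem split_vars [DecidableEq σ] (T : Finset σ) (f : MvPolynomial σ k) (n : ℕ)
    (hf : f.totalDegree ≤ n + 1) (h : ∀ d ∈ f.support, ∃ i ∈ T, d i ≠ 0) :
    ∃ P : σ → MvPolynomial σ k, (∀ i, (P i).totalDegree ≤ n) ∧ f = ∑ i ∈ T, X i * P i := by
  classical
  have H : ∀ s : Finset (σ →₀ ℕ), s ⊆ f.support → ∃ P : σ → MvPolynomial σ k,
      (∀ i, (P i).totalDegree ≤ n) ∧ ∑ d ∈ s, monomial d (coeff d f) = ∑ i ∈ T, X i * P i := by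
    intro s
    induction s using Finset.induction_on with
    | empty =>
      intro _
      refine ⟨fun _ => 0, fun i => by rw [totalDegree_zero]; exact Nat.zero_le _, ?_⟩
      simp
    | insert a s ha ih =>
      intro hs
      obtain ⟨P, hP, hPs⟩ := ih (fun x hx => hs (Finset.mem_insert_of_mem hx))
      have ham : a ∈ f.support := hs (Finset.mem_insert_self _ _)
      obtain ⟨i, hi, hai⟩ := h a ham
      have hle : Finsupp.single i 1 ≤ a := by
        rw [Finsupp.single_le_iff]
        omega
      set a' := a - Finsupp.single i 1 with ha'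
      have haa : Finsupp.single i 1 + a' = a := add_tsub_cancel_of_le hle
      have hmon : monomial a (coeff a f) = X i * monomial a' (coeff a f) := by
        rw [← haa, monomial_single_add, pow_one, haa]
      have hdeg : (monomial a' (coeff a f)).totalDegree ≤ n := by
        refine (totalDegree_monomial_le _ _).trans ?_
        have h1 : (a.sum fun _ e => e) ≤ n + 1 := (le_totalDegree ham).trans hf
        have h2 : (a.sum fun _ e => e) = 1 + a'.sum fun _ e => e := by
          conv_lhs => rw [← haa]
          rw [Finsupp.sum_add_index' (fun _ => rfl) (fun _ _ _ => rfl),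
            Finsupp.sum_single_index rfl]
        have h3 : (a'.sum fun _ e => e) ≤ n := by omega
        exact h3
      refine ⟨fun l => P l + if l = i then monomial a' (coeff a f) else 0, ?_, ?_⟩
      · intro l
        refine (totalDegree_add _ _).trans (max_le (hP l) ?_)
        split_ifs
        · exact hdeg
        · rw [totalDegree_zero]
          exact Nat.zero_le _
      · rw [Finset.sum_insert ha, hPs, hmon]
        simp only [mul_add, Finset.sum_add_distrib, mul_ite, mul_zero]
        rw [Finset.sum_ite_eq' T i, if_pos hi, add_comm]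
  obtain ⟨P, hP, h1⟩ := H f.support (fun _ hx => hx)
  exact ⟨P, hP, by rw [← h1]; exact f.as_sum⟩

/-- setting some variables to zero -/
noncomputable def kill [DecidableEq σ] (T : Finset σ) : MvPolynomial σ k →ₐ[k] MvPolynomial σ k :=
  aeval (fun i => if i ∈ T then 0 else X i)

theorem kill_monomial [DecidableEq σ] (T : Finset σ) (d : σ →₀ ℕ) (c : k) :
    kill T (monomial d c) = if ∀ i ∈ T, d i = 0 then monomial d c else 0 := by
  classical
  rw [kill, aeval_monomial]
  split_ifs with h
  · have h1 : (d.prod fun i e => (if i ∈ T then (0 : MvPolynomial σ k) else X i) ^ e) =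
        d.prod fun i e => X i ^ e := by
      apply Finsupp.prod_congr
      intro i hi
      rw [if_neg]
      intro hiT
      exact (Finsupp.mem_support_iff.1 hi) (h i hiT)
    rw [h1, monomial_eq]
    rfl
  · push Not at h
    obtain ⟨i, hi, hdi⟩ := h
    have h1 : (d.prod fun i e => (if i ∈ T then (0 : MvPolynomial σ k) else X i) ^ e) = 0 := by
      rw [Finsupp.prod]
      apply Finset.prod_eq_zero (i := i) (Finsupp.mem_support_iff.2 hdi)
      rw [if_pos hi, zero_pow hdi]
    rw [h1, mul_zero]

theorem coeff_kill [DecidableEq σ] (T : Finset σ) (f : MvPolynomial σ k) (d : σ →₀ ℕ)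
    (hd : ∀ i ∈ T, d i = 0) : coeff d (kill T f) = coeff d f := by
  classical
  induction f using MvPolynomial.induction_on' with
  | monomial u a =>
    rw [kill_monomial]
    split_ifs with h
    · rfl
    · rw [coeff_monomial, if_neg, coeff_zero]
      intro hud
      apply h
      rw [hud]
      exact hd
  | add p q hp hq => rw [map_add, coeff_add, coeff_add, hp, hq]

end

theorem support_of_vanish {k K σ : Type} [Field k] [Field K] [Infinite K] [Algebra k K]
    [DecidableEq σ] (T : Finset σ) (f : MvPolynomial σ k)
    (h : ∀ v : σ → K, (∀ i ∈ T, v i = 0) → eval v (map (algebraMap k K) f) = 0) :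
    ∀ d ∈ f.support, ∃ i ∈ T, d i ≠ 0 := by
  intro d hd
  by_contra hcon
  push Not at hcon
  apply mem_support_iff.1 hd
  rw [← coeff_kill T f d hcon]
  have h1 : kill T f = 0 := by
    have hinj : Function.Injective (map (algebraMap k K) : MvPolynomial σ k →+* _) :=
      map_injective _ (algebraMap k K).injective
    apply hinj
    rw [map_zero]
    apply MvPolynomial.funext
    intro v
    rw [map_zero]
    have h2 := h (fun i => if i ∈ T then 0 else v i) (fun i hi => if_pos hi)
    refine Eq.trans ?_ h2
    have h3 : ((eval v).comp (map (algebraMap k K))).comp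
        ((kill T : MvPolynomial σ k →ₐ[k] MvPolynomial σ k) : MvPolynomial σ k →+* _) =
        (eval (fun i => if i ∈ T then 0 else v i)).comp (map (algebraMap k K)) := by
      apply MvPolynomial.ringHom_ext
      · intro r
        change eval v (map (algebraMap k K) (kill T (C r))) =
          eval (fun i => if i ∈ T then 0 else v i) (map (algebraMap k K) (C r))
        rw [← algebraMap_eq, AlgHom.commutes, algebraMap_eq, map_C, eval_C, eval_C]
      · intro a
        change eval v (map (algebraMap k K) (kill T (X a))) =
          eval (fun i => if i ∈ T then 0 else v i) (map (algebraMap k K) (X a))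
        rw [kill, aeval_X, map_X, eval_X]
        split_ifs
        · rw [map_zero, map_zero]
        · rw [map_X, eval_X]
    exact RingHom.congr_fun h3 f
  rw [h1, coeff_zero]

theorem td_eval₂ {k R σ τ : Type} [CommRing k] [CommRing R] (c : k →+* MvPolynomial τ R)
    (hc : ∀ a, (c a).totalDegree = 0) (s : σ → MvPolynomial τ R) (hs : ∀ i, (s i).totalDegree ≤ 1)
    (P : MvPolynomial σ k) : (eval₂Hom c s P).totalDegree ≤ P.totalDegree := by
  classical
  rw [coe_eval₂Hom, eval₂_eq]
  apply totalDegree_finsetSum_le
  intro d hd
  refine (totalDegree_mul _ _).trans ?_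
  rw [hc, zero_add]
  refine (totalDegree_finsetProd _ _).trans ?_
  refine (Finset.sum_le_sum fun i hi =>
    (totalDegree_pow _ _).trans (Nat.mul_le_mul_left _ (hs i))).trans ?_
  simp only [mul_one]
  exact le_totalDegree hd

end Pool.Agent.Helper36.CU
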