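import Pool.Agent.Helper36.CU.Plane

/-!
# Removing the part over a curve
-/

namespace Pool.Agent.Helper36.CU

open TensorProduct MvPolynomial
open Pool.Agent.Helper62.RO
open Pool.Agent.Helper87.CC
open Pool.Agent.Helper36.TQ

variable {S : ∀ (A : Type) [CommRing A], Prop} {W : Type} [CommRing W] {k : Type} [Field k]

/-- polynomials in two variables -/
abbrev R2 (k : Type) [Field k] : Type := MvPolynomial (Fin 2) k

/-- the value of a polynomial in the coordinates of the plane -/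
noncomputable abbrev pv {V : Type} [CommRing V] [Algebra k V] (t : Fin 2 → V) (a : R2 k) : V :=
  aeval t a

/-- the product of the plane and a line -/
abbrev P1 (k : Type) [Field k] : Fun k := (Aff (k := k) (Fin 2)).prod line

/-- the product of the plane and two lines -/
abbrev P2 (k : Type) [Field k] : Fun k := ((Aff (k := k) (Fin 2)).prod line).prod line

/-- quadratic equations in one variable over the plane -/
noncomputable def q1 {V : Type} [CommRing V] [Algebra k V] (a b c : R2 k)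
    (x : (P1 k).obj V) : V :=
  pv x.1 a * x.2 ^ 2 + pv x.1 b * x.2 + pv x.1 c

/-- quadratic equations in two variables over the plane -/
noncomputable def q2 {V : Type} [CommRing V] [Algebra k V] (a b d e0 e1 c : R2 k)
    (x : (P2 k).obj V) : V :=
  pv x.1.1 a * x.1.2 ^ 2 + pv x.1.1 b * x.1.2 * x.2 + pv x.1.1 d * x.2 ^ 2 +
    pv x.1.1 e0 * x.1.2 + pv x.1.1 e1 * x.2 + pv x.1.1 c

theorem pv_nat {V V' : Type} [CommRing V] [Algebra k V] [CommRing V'] [Algebra k V']
    (f : V →ₐ[k] V') (t : Fin 2 → V) (a : R2 k) : f (pv t a) = pv (fun i => f (t i)) a :=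
  MvPolynomial.comp_aeval_apply (f := t) f a

/-- coordinate version of `q1` -/
noncomputable def cq1 (a b c : R2 k) : Crd (P1 k) where
  val V _ _ x := q1 a b c x
  nat {V V'} _ _ _ _ f x := by
    simp only [q1, map_add, map_mul, map_pow, pv_nat]

/-- coordinate version of `q2` -/
noncomputable def cq2 (a b d e0 e1 c : R2 k) : Crd (P2 k) where
  val V _ _ x := q2 a b d e0 e1 c x
  nat {V V'} _ _ _ _ f x := by
    simp only [q2, map_add, map_mul, map_pow, pv_nat]

/-- functions on the plane -/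
noncomputable def cp1 (h : R2 k) : Crd (P1 k) where
  val V _ _ x := pv x.1 h
  nat f x := pv_nat f x.1 h

/-- functions on the plane -/
noncomputable def cp2 (h : R2 k) : Crd (P2 k) where
  val V _ _ x := pv x.1.1 h
  nat f x := pv_nat f x.1.1 h

theorem ft_p1 : Good (Ft k) (P1 k) (fun _ _ _ _ => True) :=
  ⟨_, _, _, _, rep_line (rep_aff (k := k) (Fin 2)),
    Algebra.FiniteType.trans (S := MvPolynomial (Fin 2) k) inferInstance inferInstance⟩

theorem ft_p2 : Good (Ft k) (P2 k) (fun _ _ _ _ => True) := by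
  have h1 : Algebra.FiniteType k (Polynomial (MvPolynomial (Fin 2) k)) :=
    Algebra.FiniteType.trans (S := MvPolynomial (Fin 2) k) inferInstance inferInstance
  exact ⟨_, _, _, _, rep_line (rep_line (rep_aff (k := k) (Fin 2))),
    Algebra.FiniteType.trans (S := Polynomial (MvPolynomial (Fin 2) k)) h1 inferInstance⟩

theorem ft_q1 (a b c : R2 k) : Good (Ft k) (P1 k) (fun V _ _ x => q1 (V := V) a b c x = 0) :=
  (ft_p1.ft_cls1 (cq1 a b c)).congr (fun V _ _ x => by
    constructor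
    · rintro ⟨-, h⟩
      exact h
    · intro h
      exact ⟨trivial, h⟩)

theorem ft_q2 (a b d e0 e1 c : R2 k) :
    Good (Ft k) (P2 k) (fun V _ _ x => q2 (V := V) a b d e0 e1 c x = 0) :=
  (ft_p2.ft_cls1 (cq2 a b d e0 e1 c)).congr (fun V _ _ x => by
    constructor
    · rintro ⟨-, h⟩
      exact h
    · intro h
      exact ⟨trivial, h⟩)

section

variable {R : Type} [CommRing R] {σ : Type}

theorem td_add {p q : MvPolynomial σ R} {d : ℕ} (hp : p.totalDegree ≤ d) (hq : q.totalDegree ≤ d) :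
    (p + q).totalDegree ≤ d := (totalDegree_add p q).trans (max_le hp hq)

theorem td_C (a : R) (d : ℕ) : (C a : MvPolynomial σ R).totalDegree ≤ d := by
  rw [totalDegree_C]
  exact Nat.zero_le _

theorem td_Cmul (a : R) {p : MvPolynomial σ R} {d : ℕ} (hp : p.totalDegree ≤ d) :
    (C a * p).totalDegree ≤ d := by
  refine (totalDegree_mul _ _).trans ?_
  rw [totalDegree_C, zero_add]
  exact hp

theorem td_X [Nontrivial R] (i : σ) {d : ℕ} (hd : 1 ≤ d) :
    (X i : MvPolynomial σ R).totalDegree ≤ d := by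
  rw [totalDegree_X]
  exact hd

theorem td_mul {p q : MvPolynomial σ R} {d e f : ℕ} (hp : p.totalDegree ≤ d)
    (hq : q.totalDegree ≤ e) (h : d + e ≤ f) : (p * q).totalDegree ≤ f :=
  (totalDegree_mul _ _).trans ((Nat.add_le_add hp hq).trans h)

theorem td_sq {p : MvPolynomial σ R} (hp : p.totalDegree ≤ 1) : (p ^ 2).totalDegree ≤ 2 := by
  rw [pow_two]
  exact td_mul hp hp (le_refl 2)

end

theorem curve1 [Finite k] (hW : S W) (hfam : Fam S) (h : R2 k) (hh : h ≠ 0)
    (a b c : R2 k) :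
    Good (MW S W k) (P1 k) (fun V _ _ x => q1 (V := V) a b c x = 0 ∧ pv x.1 h = 0) := by
  have h1 := good_over_curve hW hfam (m := 1) h hh
    (C a * X 0 ^ 2 + C b * X 0 + C c) (td_add (td_add (td_Cmul _ (td_sq (td_X 0 le_rfl)))
      (td_Cmul _ (td_X 0 (by norm_num)))) (td_C _ _))
  refine h1.iso (E' := P1 k)
    (fun V _ _ (x : ((Aff (k := k) (Fin 2)).prod (Aff (Fin 1))).obj V) => (x.1, x.2 0))
    (fun V _ _ (x : (P1 k).obj V) => (x.1, fun _ => x.2)) ?_ ?_ ?_ (fun _ _ _ _ _ => rfl)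
    (fun _ _ _ _ _ _ _ _ _ => rfl)
  · rintro V _ _ ⟨t, x⟩ ⟨h2, h3⟩
    refine ⟨?_, h2⟩
    simp only [map_add, map_mul, map_pow, ev2_C, ev2_X] at h3
    exact h3
  · rintro V _ _ ⟨t, x⟩ ⟨h2, h3⟩
    refine ⟨h3, ?_⟩
    simp only [map_add, map_mul, map_pow, ev2_C, ev2_X]
    exact h2
  · rintro V _ _ ⟨t, x⟩ _
    refine Prod.ext rfl ?_
    funext i
    rw [Subsingleton.elim i 0]

theorem curve2 [Finite k] (hW : S W) (hfam : Fam S) (h : R2 k) (hh : h ≠ 0)
    (a b d e0 e1 c : R2 k) :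
    Good (MW S W k) (P2 k)
      (fun V _ _ x => q2 (V := V) a b d e0 e1 c x = 0 ∧ pv x.1.1 h = 0) := by
  have h1 := good_over_curve hW hfam (m := 2) h hh
    (C a * X 0 ^ 2 + C b * (X 0 * X 1) + C d * X 1 ^ 2 + C e0 * X 0 + C e1 * X 1 + C c)
      (td_add (td_add (td_add (td_add (td_add (td_Cmul _ (td_sq (td_X 0 le_rfl)))
      (td_Cmul _ (td_mul (td_X 0 le_rfl) (td_X 1 le_rfl) le_rfl)))
      (td_Cmul _ (td_sq (td_X 1 le_rfl)))) (td_Cmul _ (td_X 0 (by norm_num))))
      (td_Cmul _ (td_X 1 (by norm_num)))) (td_C _ _))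
  refine h1.iso (E' := P2 k)
    (fun V _ _ (x : ((Aff (k := k) (Fin 2)).prod (Aff (Fin 2))).obj V) => ((x.1, x.2 0), x.2 1))
    (fun V _ _ (x : (P2 k).obj V) => (x.1.1, ![x.1.2, x.2])) ?_ ?_ ?_ (fun _ _ _ _ _ => rfl)
    (fun _ _ _ _ _ _ _ _ _ => rfl)
  · rintro V _ _ ⟨t, x⟩ ⟨h2, h3⟩
    refine ⟨?_, h2⟩
    simp only [map_add, map_mul, map_pow, ev2_C, ev2_X] at h3
    simp only [q2]
    linear_combination h3
  · rintro V _ _ ⟨⟨t, x⟩, y⟩ ⟨h2, h3⟩
    refine ⟨h3, ?_⟩
    simp only [map_add, map_mul, map_pow, ev2_C, ev2_X]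
    simp only [q2] at h2
    simp only [Matrix.cons_val_zero, Matrix.cons_val_one]
    linear_combination h2
  · rintro V _ _ ⟨t, x⟩ _
    refine Prod.ext rfl ?_
    funext i
    fin_cases i <;> rfl

theorem remove1 [Finite k] (hS : SOps S) (hW : S W) (hfam : Fam S) (h : R2 k) (hh : h ≠ 0)
    (a b c : R2 k) (h1 : Good (MW S W k) (P1 k)
      (fun V _ _ x => q1 (V := V) a b c x = 0 ∧ IsUnit (pv x.1 h))) :
    Good (MW S W k) (P1 k) (fun V _ _ x => q1 (V := V) a b c x = 0) :=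
  good_glue hS hW (ft_q1 a b c) (cp1 h) (curve1 hW hfam h hh a b c) h1

theorem add1 [Finite k] (hS : SOps S) (hW : S W) (hfam : Fam S) (h : R2 k) (hh : h ≠ 0)
    (a b c : R2 k) (h1 : Good (MW S W k) (P1 k) (fun V _ _ x => q1 (V := V) a b c x = 0)) :
    Good (MW S W k) (P1 k) (fun V _ _ x => q1 (V := V) a b c x = 0 ∧ IsUnit (pv x.1 h)) :=
  good_opn hS h1 (cp1 h) (curve1 hW hfam h hh a b c)

theorem remove2 [Finite k] (hS : SOps S) (hW : S W) (hfam : Fam S) (h : R2 k) (hh : h ≠ 0)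
    (a b d e0 e1 c : R2 k) (h1 : Good (MW S W k) (P2 k)
      (fun V _ _ x => q2 (V := V) a b d e0 e1 c x = 0 ∧ IsUnit (pv x.1.1 h))) :
    Good (MW S W k) (P2 k) (fun V _ _ x => q2 (V := V) a b d e0 e1 c x = 0) :=
  good_glue hS hW (ft_q2 a b d e0 e1 c) (cp2 h) (curve2 hW hfam h hh a b d e0 e1 c) h1

end Pool.Agent.Helper36.CU
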