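import Pool.Agent.Helper36.CU.Cases
import Pool.Agent.Helper87.CC.Line

/-!
# Cubic surfaces over finite fields
-/

namespace Pool.Agent.Helper36.CU

open TensorProduct MvPolynomial
open Pool.Agent.Helper62.RO
open Pool.Agent.Helper87.CC
open Pool.Agent.Helper36.TQ

variable {S : ∀ (A : Type) [CommRing A], Prop} {W : Type} [CommRing W] {k : Type} [Field k]

/-- affine changes of coordinates -/
noncomputable def aff (M : Matrix (Fin 3) (Fin 3) k) (p : Fin 3 → k) :
    Fin 3 → MvPolynomial (Fin 3) k :=
  fun i => (∑ j, C (M i j) * X j) + C (p i)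

theorem td_aff (M : Matrix (Fin 3) (Fin 3) k) (p : Fin 3 → k) (i : Fin 3) :
    (aff M p i).totalDegree ≤ 1 := by
  refine (totalDegree_add _ _).trans (max_le ?_ ?_)
  · apply totalDegree_finsetSum_le
    intro j _
    refine (totalDegree_mul _ _).trans ?_
    rw [totalDegree_C, zero_add]
    exact (totalDegree_X _).le
  · rw [totalDegree_C]
    exact zero_le_one

/-- the affine map -/
def amap (M : Matrix (Fin 3) (Fin 3) k) (p : Fin 3 → k) (V : Type) [CommRing V] [Algebra k V]
    (x : Fin 3 → V) : Fin 3 → V :=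
  fun i => (∑ j, algebraMap k V (M i j) * x j) + algebraMap k V (p i)

theorem aeval_aff (M : Matrix (Fin 3) (Fin 3) k) (p : Fin 3 → k) (V : Type) [CommRing V]
    [Algebra k V] (x : Fin 3 → V) (f : MvPolynomial (Fin 3) k) :
    aeval x (bind₁ (aff M p) f) = aeval (amap M p V x) f := by
  rw [aeval_bind₁]
  congr 2
  funext i
  simp only [aff, amap, map_add, map_sum, map_mul, aeval_C, aeval_X]

theorem amap_amap (M N : Matrix (Fin 3) (Fin 3) k) (p q : Fin 3 → k) (V : Type) [CommRing V]
    [Algebra k V] (x : Fin 3 → V) (hMN : M * N = 1) (hp : ∀ i, (∑ j, M i j * q j) + p i = 0) :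
    amap M p V (amap N q V x) = x := by
  funext i
  simp only [amap]
  have h1 : ∀ i l, ∑ j, M i j * N j l = (1 : Matrix (Fin 3) (Fin 3) k) i l := by
    intro i l
    rw [← hMN, Matrix.mul_apply]
  have h2 : ∑ j, algebraMap k V (M i j) * ((∑ l, algebraMap k V (N j l) * x l) +
      algebraMap k V (q j)) = (∑ l, algebraMap k V (∑ j, M i j * N j l) * x l) +
        algebraMap k V (∑ j, M i j * q j) := by
    simp only [Fin.sum_univ_three, map_add, map_mul]
    ring
  rw [h2, add_assoc, ← map_add, hp, map_zero, add_zero]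
  simp only [h1]
  rw [Finset.sum_eq_single i]
  · rw [Matrix.one_apply_eq, map_one, one_mul]
  · intro j _ hj
    rw [Matrix.one_apply_ne hj.symm, map_zero, zero_mul]
  · intro h
    exact absurd (Finset.mem_univ i) h

theorem good_affine (M : Matrix (Fin 3) (Fin 3) k) (hM : M.det ≠ 0) (p : Fin 3 → k)
    (f : MvPolynomial (Fin 3) k)
    (h : Good (MW S W k) (Aff (Fin 3)) (fun V _ _ x => aeval x (bind₁ (aff M p) f) = 0)) :
    Good (MW S W k) (Aff (Fin 3)) (fun V _ _ x => aeval x f = 0) := by
  have hu : IsUnit M.det := isUnit_iff_ne_zero.2 hM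
  have h1 : M * M⁻¹ = 1 := Matrix.mul_nonsing_inv M hu
  have h2 : M⁻¹ * M = 1 := Matrix.nonsing_inv_mul M hu
  let q : Fin 3 → k := fun i => -∑ j, M⁻¹ i j * p j
  have hq1 : ∀ i, (∑ j, M i j * q j) + p i = 0 := by
    intro i
    have h3 : ∑ j, M i j * q j = -(∑ l, (∑ j, M i j * M⁻¹ j l) * p l) := by
      simp only [q, Fin.sum_univ_three]
      ring
    have h4 : ∀ l, ∑ j, M i j * M⁻¹ j l = (1 : Matrix (Fin 3) (Fin 3) k) i l := by
      intro l
      rw [← h1, Matrix.mul_apply]
    rw [h3]
    simp only [h4]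
    rw [Finset.sum_eq_single i]
    · rw [Matrix.one_apply_eq, one_mul, neg_add_cancel]
    · intro j _ hj
      rw [Matrix.one_apply_ne hj.symm, zero_mul]
    · intro h
      exact absurd (Finset.mem_univ i) h
  have hq2 : ∀ i, (∑ j, M⁻¹ i j * p j) + q i = 0 := by
    intro i
    exact add_neg_cancel _
  refine h.iso (E' := Aff (Fin 3))
    (fun V _ _ (x : (Aff (k := k) (Fin 3)).obj V) => amap M p V x)
    (fun V _ _ (x : (Aff (k := k) (Fin 3)).obj V) => amap M⁻¹ q V x) ?_ ?_ ?_ ?_ ?_
  · intro V _ _ x hx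
    exact (aeval_aff M p V x f).symm.trans hx
  · intro V _ _ x hx
    refine (aeval_aff M p V _ f).trans ?_
    rw [amap_amap M M⁻¹ p q V x h1 hq1]
    exact hx
  · intro V _ _ x _
    exact amap_amap M⁻¹ M q p V x h2 hq2
  · intro V _ _ x _
    exact amap_amap M M⁻¹ p q V x h1 hq1
  · intro V V' _ _ _ _ g x _
    funext i
    change g ((∑ j, algebraMap k V (M i j) * x j) + algebraMap k V (p i)) =
      (∑ j, algebraMap k V' (M i j) * g (x j)) + algebraMap k V' (p i)
    simp only [map_add, map_sum, map_mul, AlgHom.commutes]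

theorem eval_aff {K : Type} [Field K] [Algebra k K] (M : Matrix (Fin 3) (Fin 3) k)
    (p : Fin 3 → k) (f : MvPolynomial (Fin 3) k) (v : Fin 3 → K) :
    eval v (map (algebraMap k K) (bind₁ (aff M p) f)) =
      eval (amap M p K v) (map (algebraMap k K) f) := by
  have h1 : ∀ (v : Fin 3 → K) (f : MvPolynomial (Fin 3) k),
      eval v (map (algebraMap k K) f) = aeval v f := by
    intro v f
    rw [eval_map, aeval_def]
  rw [h1, h1, aeval_aff]

/-- homogenisation -/
noncomputable def hgn {R : Type} [CommRing R] (c : ℕ → MvPolynomial (Fin 3) R) :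
    MvPolynomial (Fin 4) R :=
  ∑ n ∈ Finset.range 4, X 0 ^ (3 - n) * rename Fin.succ (c n)

theorem eval_hgn {R : Type} [CommRing R] (c : ℕ → MvPolynomial (Fin 3) R) (v : Fin 4 → R) :
    eval v (hgn c) = ∑ n ∈ Finset.range 4, v 0 ^ (3 - n) * eval (fun i => v (Fin.succ i)) (c n) := by
  rw [hgn, map_sum]
  refine Finset.sum_congr rfl fun n _ => ?_
  rw [map_mul, map_pow, eval_X, eval_rename]
  rfl

theorem hgn_hom {R : Type} [CommRing R] (c : ℕ → MvPolynomial (Fin 3) R)
    (hc : ∀ n, (c n).IsHomogeneous n) : (hgn c).IsHomogeneous 3 := by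
  apply IsHomogeneous.sum
  intro n hn
  have hn := Finset.mem_range.1 hn
  have h1 := ((isHomogeneous_X R (0 : Fin 4)).pow (3 - n)).mul ((hc n).rename_isHomogeneous
    (f := Fin.succ))
  have h2 : 1 * (3 - n) + n = 3 := by omega
  rw [h2] at h1
  exact h1

/-- a line at infinity -/
theorem lineA [Finite k] {K : Type} [Field K] [Infinite K] [Algebra k K] (hW : S W)
    (hfam : Fam S) (c : ℕ → MvPolynomial (Fin 3) k) (hc : ∀ n < 4, (c n).totalDegree ≤ n)
    (u w : Fin 4 → k) (i j : Fin 4) (h1 : u i = 1) (h2 : u j = 0) (h3 : w i = 0) (h4 : w j = 1)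
    (hu : u 0 = 0) (hw : w 0 = 0)
    (hv : ∀ x y : K, ∑ n ∈ Finset.range 4, (x * algebraMap k K (u 0) +
      y * algebraMap k K (w 0)) ^ (3 - n) * eval (fun l : Fin 3 => x * algebraMap k K (u l.succ) +
        y * algebraMap k K (w l.succ)) (map (algebraMap k K) (c n)) = 0) :
    Good (MW S W k) (Aff (Fin 3)) (fun V _ _ x => aeval x (∑ n ∈ Finset.range 4, c n) = 0) := by
  have hi : i ≠ 0 := by
    rintro rfl
    rw [hu] at h1
    exact zero_ne_one h1
  have hj : j ≠ 0 := by
    rintro rfl
    rw [hw] at h4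
    exact zero_ne_one h4
  obtain ⟨i, rfl⟩ := Fin.exists_succ_eq.2 hi
  obtain ⟨j, rfl⟩ := Fin.exists_succ_eq.2 hj
  have hij : i ≠ j := by
    rintro rfl
    rw [h1] at h2
    exact one_ne_zero h2
  obtain ⟨l, hl⟩ : ∃ l : Fin 3, (Matrix.of fun a b : Fin 3 =>
      (![if a = l then (1 : k) else 0, u a.succ, w a.succ] : Fin 3 → k) b).det ≠ 0 := by
    have key : ∀ (i j l : Fin 3), i ≠ j → i ≠ l → j ≠ l → ∀ a b : Fin 3 → k, a i = 1 → a j = 0 →
        b i = 0 → b j = 1 → (Matrix.of fun x y : Fin 3 =>
      (![if x = l then (1 : k) else 0, a x, b x] : Fin 3 → k) y).det ≠ 0 := by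
      intro i j l hij hil hjl a b h1 h2 h3 h4
      rw [Matrix.det_fin_three]
      simp only [Matrix.of_apply, Matrix.cons_val_zero, Matrix.cons_val_one, Matrix.cons_val]
      fin_cases i <;> fin_cases j <;> fin_cases l <;>
        first
          | exact absurd rfl hij
          | exact absurd rfl hil
          | exact absurd rfl hjl
          | (simp at h1 h2 h3 h4; simp [h1, h2, h3, h4])
    have h5 : ∀ i j : Fin 3, i ≠ j → ∃ l : Fin 3, i ≠ l ∧ j ≠ l := by decide
    obtain ⟨l, h6, h7⟩ := h5 i j hij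
    exact ⟨l, key i j l hij h6 h7 (fun a => u a.succ) (fun a => w a.succ) h1 h2 h3 h4⟩
  apply good_affine _ hl 0
  set M : Matrix (Fin 3) (Fin 3) k := (Matrix.of fun a b : Fin 3 =>
      (![if a = l then (1 : k) else 0, u a.succ, w a.succ] : Fin 3 → k) b) with hM
  have h5 := caseA (K := K) hW hfam (bind₁ (aff M 0) (c 3))
    (bind₁ (aff M 0) (∑ n ∈ Finset.range 3, c n))
    ((td_bind _ (td_aff M 0) _).trans (hc 3 (by norm_num)))
    ((td_bind _ (td_aff M 0) _).trans (totalDegree_finsetSum_le (fun n hn => by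
      have := Finset.mem_range.1 hn
      exact (hc n (by omega)).trans (by omega)))) (by
    intro v hv0
    rw [eval_aff]
    have h6 := hv (v 1) (v 2)
    rw [Finset.sum_range_succ, Finset.sum_eq_zero, zero_add, Nat.sub_self, pow_zero, one_mul] at h6
    · refine Eq.trans ?_ h6
      congr 2
      funext a
      simp only [amap, hM, Fin.sum_univ_three, Matrix.of_apply, Matrix.cons_val_zero,
        Matrix.cons_val_one, Matrix.cons_val, hv0, Pi.zero_apply, map_zero]
      ring
    · intro n hn
      have hn := Finset.mem_range.1 hn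
      rw [hu, hw, map_zero, mul_zero, mul_zero, add_zero, zero_pow (by omega), zero_mul])
  refine h5.congr (fun V _ _ x => ?_)
  rw [← map_add, add_comm, ← Finset.sum_range_succ]

/-- an affine line -/
theorem lineB [Finite k] {K : Type} [Field K] [Infinite K] [Algebra k K] (hS : SOps S) (hW : S W)
    (hfam : Fam S) (c : ℕ → MvPolynomial (Fin 3) k) (hc : ∀ n < 4, (c n).totalDegree ≤ n)
    (u w : Fin 4 → k) (i j : Fin 4) (h1 : u i = 1) (h2 : u j = 0) (h3 : w i = 0) (h4 : w j = 1)
    (hu : u 0 ≠ 0)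
    (hv : ∀ x y : K, ∑ n ∈ Finset.range 4, (x * algebraMap k K (u 0) +
      y * algebraMap k K (w 0)) ^ (3 - n) * eval (fun l : Fin 3 => x * algebraMap k K (u l.succ) +
        y * algebraMap k K (w l.succ)) (map (algebraMap k K) (c n)) = 0) :
    Good (MW S W k) (Aff (Fin 3)) (fun V _ _ x => aeval x (∑ n ∈ Finset.range 4, c n) = 0) := by
  let p : Fin 4 → k := fun a => u a / u 0
  let d : Fin 4 → k := fun a => w a - w 0 * p a
  have hp0 : p 0 = 1 := div_self hu
  have hd0 : d 0 = 0 := by
    simp only [d, hp0, mul_one, sub_self]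
  have hdj : d j = 1 := by
    simp only [d, p, h2, h4, zero_div, mul_zero, sub_zero]
  have hj : j ≠ 0 := by
    rintro rfl
    exact hu h2
  obtain ⟨j, rfl⟩ := Fin.exists_succ_eq.2 hj
  obtain ⟨a, b, hab⟩ : ∃ a b : Fin 3, (Matrix.of fun x y : Fin 3 =>
      (![d x.succ, if x = a then (1 : k) else 0, if x = b then (1 : k) else 0] : Fin 3 → k)
        y).det ≠ 0 := by
    have key : ∀ (j a b : Fin 3), j ≠ a → j ≠ b → a ≠ b → ∀ d : Fin 3 → k, d j = 1 →
      (Matrix.of fun x y : Fin 3 =>
      (![d x, if x = a then (1 : k) else 0, if x = b then (1 : k) else 0] : Fin 3 → k)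
        y).det ≠ 0 := by
      intro j a b hja hjb hab d hd
      rw [Matrix.det_fin_three]
      simp only [Matrix.of_apply, Matrix.cons_val_zero, Matrix.cons_val_one, Matrix.cons_val]
      fin_cases j <;> fin_cases a <;> fin_cases b <;>
        first
          | exact absurd rfl hja
          | exact absurd rfl hjb
          | exact absurd rfl hab
          | (simp at hd; simp [hd])
    have h5 : ∀ j : Fin 3, ∃ a b : Fin 3, j ≠ a ∧ j ≠ b ∧ a ≠ b := by decide
    obtain ⟨a, b, h6, h7, h8⟩ := h5 j
    exact ⟨a, b, key j a b h6 h7 h8 (fun x => d x.succ) hdj⟩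
  apply good_affine _ hab (fun x => p x.succ)
  set M : Matrix (Fin 3) (Fin 3) k := (Matrix.of fun x y : Fin 3 =>
      (![d x.succ, if x = a then (1 : k) else 0, if x = b then (1 : k) else 0] : Fin 3 → k)
        y) with hM
  apply caseB (K := K) hS hW hfam
  · refine (td_bind _ (td_aff M _) _).trans (totalDegree_finsetSum_le (fun n hn => ?_))
    have := Finset.mem_range.1 hn
    exact (hc n this).trans (by omega)
  · intro v hv1 hv2
    rw [eval_aff, map_sum, map_sum]
    have hu' : algebraMap k K (u 0) ≠ 0 := by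
      rw [Ne, map_eq_zero]
      exact hu
    have h6 := hv ((1 - v 0 * algebraMap k K (w 0)) / algebraMap k K (u 0)) (v 0)
    have h7 : (1 - v 0 * algebraMap k K (w 0)) / algebraMap k K (u 0) * algebraMap k K (u 0) +
        v 0 * algebraMap k K (w 0) = 1 := by
      field_simp
      ring
    simp only [h7, one_pow, one_mul] at h6
    refine Eq.trans ?_ h6
    refine Finset.sum_congr rfl fun n _ => ?_
    congr 2
    funext x
    simp only [amap, hM, Fin.sum_univ_three, Matrix.of_apply, Matrix.cons_val_zero,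
      Matrix.cons_val_one, Matrix.cons_val, hv1, hv2, d, p, map_sub, map_mul, map_div₀]
    field_simp
    ring

/-- **Cubic surfaces.** -/
theorem cubic_surface (hS : SOps S) (hfam : Fam S) {k : Type} [Field k] [Finite k] {W : Type}
    [CommRing W] (hW : S W) (g : MvPolynomial (Fin 3) k) (hg : g.totalDegree ≤ 3) :
    S (Ten W (MvPolynomial (Fin 3) k ⧸ Ideal.span {g})) := by
  classical
  let c : ℕ → MvPolynomial (Fin 3) k := fun n => homogeneousComponent n g
  have hcg : ∑ n ∈ Finset.range 4, c n = g := by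
    conv_rhs => rw [← sum_homogeneousComponent g]
    symm
    apply Finset.sum_subset
    · intro n hn
      rw [Finset.mem_range] at hn ⊢
      omega
    · intro n _ hn
      rw [Finset.mem_range] at hn
      exact homogeneousComponent_eq_zero _ _ (by omega)
  let K := AlgebraicClosure k
  let cK : ℕ → MvPolynomial (Fin 3) K := fun n => map (algebraMap k K) (c n)
  have hcK : ∀ n, (cK n).IsHomogeneous n := fun n =>
    (homogeneousComponent_isHomogeneous n g).map (algebraMap k K)
  obtain ⟨i, j, u, w, h1, h2, h3, h4, h5⟩ := Line.exists_line (hgn cK) (hgn_hom cK hcK)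
  let k' := IntermediateField.adjoin k (Set.range u ∪ Set.range w)
  have hfin : FiniteDimensional k k' := by
    have : Finite ↥(Set.range u ∪ Set.range w) := ((Set.finite_range _).union (Set.finite_range _))
    exact IntermediateField.finiteDimensional_adjoin
      (fun x _ => (Algebra.IsAlgebraic.isAlgebraic x).isIntegral)
  have : Finite k' := Module.finite_of_finite k
  have : Infinite K := IsAlgClosed.instInfinite
  let u' : Fin 4 → k' := fun a => ⟨u a, IntermediateField.subset_adjoin k _ (Or.inl ⟨a, rfl⟩)⟩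
  let w' : Fin 4 → k' := fun a => ⟨w a, IntermediateField.subset_adjoin k _ (Or.inr ⟨a, rfl⟩)⟩
  have hu' : ∀ a, algebraMap k' K (u' a) = u a := fun _ => rfl
  have hw' : ∀ a, algebraMap k' K (w' a) = w a := fun _ => rfl
  let c' : ℕ → MvPolynomial (Fin 3) k' := fun n => map (algebraMap k k') (c n)
  have hc' : ∀ n < 4, (c' n).totalDegree ≤ n := by
    intro n _
    have h6 : (c' n).IsHomogeneous n :=
      (homogeneousComponent_isHomogeneous n g).map (algebraMap k k')
    exact h6.totalDegree_le
  have hcc : ∀ n, map (algebraMap k' K) (c' n) = cK n := by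
    intro n
    simp only [c', cK, MvPolynomial.map_map]
    rfl
  have hcg' : ∑ n ∈ Finset.range 4, c' n = map (algebraMap k k') g := by
    rw [← hcg, map_sum]
  apply descend (k' := k') hS (hS.ft W hW)
  rw [Set.image_singleton]
  apply (good_vs_iff (k := k') (W := W) hS _).1
  have hv : ∀ x y : K, ∑ n ∈ Finset.range 4, (x * algebraMap k' K (u' 0) +
      y * algebraMap k' K (w' 0)) ^ (3 - n) * eval (fun l : Fin 3 => x * algebraMap k' K (u' l.succ) +
        y * algebraMap k' K (w' l.succ)) (map (algebraMap k' K) (c' n)) = 0 := by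
    intro x y
    have h6 := h5 x y
    rw [eval_hgn] at h6
    simp only [hcc, hu', hw']
    exact h6
  have h1' : u' i = 1 := Subtype.ext h1
  have h2' : u' j = 0 := Subtype.ext h2
  have h3' : w' i = 0 := Subtype.ext h3
  have h4' : w' j = 1 := Subtype.ext h4
  have key : Good (MW S W k') (Aff (Fin 3)) (fun V _ _ x =>
      aeval x (∑ n ∈ Finset.range 4, c' n) = 0) := by
    by_cases hu0 : u' 0 = 0
    · by_cases hw0 : w' 0 = 0
      · exact lineA (K := K) hW hfam c' hc' u' w' i j h1' h2' h3' h4' hu0 hw0 hv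
      · refine lineB (K := K) hS hW hfam c' hc' w' u' j i h4' h3' h2' h1' hw0 (fun x y => ?_)
        refine Eq.trans ?_ (hv y x)
        refine Finset.sum_congr rfl fun n _ => ?_
        rw [add_comm (x * _)]
        congr 3
        funext l
        rw [add_comm]
    · exact lineB (K := K) hS hW hfam c' hc' u' w' i j h1' h2' h3' h4' hu0 hv
  refine key.congr (fun V _ _ x => ?_)
  rw [VS, hcg']
  simp

end Pool.Agent.Helper36.CU
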